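import Pool.Agent.MP_d5eec5_gt.H77.GSpec

/-! Basic facts on interleaved chords, placements and runs. -/

set_option autoImplicit false

namespace Pool.Agent.MP_d5eec5_gt.H77

open Pool.Agent.MP_d5eec5_gt.H48 Finset

theorem btw_comm (a b x : ℚ) : btw a b x ↔ btw b a x := by
  unfold btw; rw [min_comm, max_comm]

theorem btw_iff (a b x : ℚ) : btw a b x ↔ (a < x ∧ x < b) ∨ (b < x ∧ x < a) := by
  unfold btw
  rcases le_total a b with h | h
  · rw [min_eq_left h, max_eq_right h]
    constructor
    · exact Or.inl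
    · rintro (h' | ⟨h1, h2⟩)
      · exact h'
      · exact absurd (h1.trans h2) (not_lt.mpr h)
  · rw [min_eq_right h, max_eq_left h]
    constructor
    · exact Or.inr
    · rintro (⟨h1, h2⟩ | h')
      · exact absurd (h1.trans h2) (not_lt.mpr h)
      · exact h'

/-- For `x` different from `a` and `b`, betweenness is a parity of comparisons. -/
theorem btw_iff_xor {a b x : ℚ} (ha : a ≠ x) (hb : b ≠ x) :
    btw a b x ↔ ¬ (a < x ↔ b < x) := by
  rw [btw_iff]
  rcases lt_or_gt_of_ne ha with h1 | h1 <;> rcases lt_or_gt_of_ne hb with h2 | h2 <;>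
    simp [h1, h2, not_lt.mpr h1.le, not_lt.mpr h2.le]

theorem c1_le_one (a b c d : ℚ) : c1 a b c d ≤ 1 := by
  unfold c1; split_ifs <;> simp

theorem c1_swap_left (a b c d : ℚ) : c1 a b c d = c1 b a c d := by
  unfold c1; simp only [btw_comm a b]

theorem c1_swap_right (a b c d : ℚ) : c1 a b c d = c1 a b d c := by
  unfold c1; simp only [iff_comm (a := btw a b c)]

/-- The crossing indicator through the four comparisons. -/
theorem c1_eq {a b c d : ℚ} (h1 : a ≠ c) (h2 : a ≠ d) (h3 : b ≠ c) (h4 : b ≠ d) :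
    c1 a b c d = if ((a < c ↔ b < c) ↔ (a < d ↔ b < d)) then 0 else 1 := by
  unfold c1
  apply if_congr _ rfl rfl
  rw [btw_iff_xor h1 h3, btw_iff_xor h2 h4]
  by_cases q1 : a < c <;> by_cases q2 : b < c <;> by_cases q3 : a < d <;> by_cases q4 : b < d <;>
    simp [q1, q2, q3, q4]

theorem c1_symm {a b c d : ℚ} (h1 : a ≠ c) (h2 : a ≠ d) (h3 : b ≠ c) (h4 : b ≠ d) :
    c1 a b c d = c1 c d a b := by
  rw [c1_eq h1 h2 h3 h4, c1_eq h1.symm h3.symm h2.symm h4.symm]
  have e1 : c < a ↔ ¬ a < c := by
    constructor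
    · intro h; exact not_lt.mpr h.le
    · intro h; exact lt_of_le_of_ne (not_lt.mp h) h1.symm
  have e2 : d < a ↔ ¬ a < d := by
    constructor
    · intro h; exact not_lt.mpr h.le
    · intro h; exact lt_of_le_of_ne (not_lt.mp h) h2.symm
  have e3 : c < b ↔ ¬ b < c := by
    constructor
    · intro h; exact not_lt.mpr h.le
    · intro h; exact lt_of_le_of_ne (not_lt.mp h) h3.symm
  have e4 : d < b ↔ ¬ b < d := by
    constructor
    · intro h; exact not_lt.mpr h.le
    · intro h; exact lt_of_le_of_ne (not_lt.mp h) h4.symm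
  apply if_congr _ rfl rfl
  rw [e1, e2, e3, e4]
  by_cases q1 : a < c <;> by_cases q2 : b < c <;> by_cases q3 : a < d <;> by_cases q4 : b < d <;>
    simp only [q1, q2, q3, q4] <;> decide

/-- Triangle inequality: the chord `x y` separates `a` from `c` only if it separates `a` from
`b` or `b` from `c`. -/
theorem c1_tri (x y a b c : ℚ) : c1 x y a c ≤ c1 x y a b + c1 x y b c := by
  unfold c1
  by_cases h1 : btw x y a <;> by_cases h2 : btw x y b <;> by_cases h3 : btw x y c <;>
    simp [h1, h2, h3]

/-- Uncrossing: if `a b` and `c d` cross, replacing them by `a d` and `b c` does not increase the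
number of crossings with a chord `x y`. -/
theorem c1_uncross {a b c d : ℚ} (x y : ℚ) (h : c1 a b c d = 1) :
    c1 x y a d + c1 x y b c ≤ c1 x y a b + c1 x y c d := by
  have h' : ¬ (btw a b c ↔ btw a b d) := by
    intro h'; unfold c1 at h; rw [if_pos h'] at h; exact absurd h (by decide)
  unfold c1
  by_cases h1 : btw x y a <;> by_cases h2 : btw x y b <;> by_cases h3 : btw x y c <;>
    by_cases h4 : btw x y d <;> simp [h1, h2, h3, h4]
  · exfalso
    apply h'
    have : ∀ t, ¬ btw x y t → ¬ btw a b t := by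
      intro t ht hb
      apply ht
      unfold btw at *
      exact ⟨(lt_min h1.1 h2.1).trans hb.1, hb.2.trans (max_lt h1.2 h2.2)⟩
    simp [this c h3, this d h4]
  · exfalso
    apply h'
    have key : ∀ s t, btw x y s → btw x y t → btw a b s → btw a b t := by
      intro s t hs ht hb
      have ha : a ≤ min x y ∨ max x y ≤ a := by
        by_contra hc; push Not at hc; exact h1 hc
      have hb' : b ≤ min x y ∨ max x y ≤ b := by
        by_contra hc; push Not at hc; exact h2 hc
      rw [btw_iff] at hb ⊢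
      unfold btw at hs ht
      rcases hb with ⟨p1, p2⟩ | ⟨p1, p2⟩ <;> rcases ha with ha | ha <;> rcases hb' with hb' | hb'
      all_goals first
        | (exfalso; linarith [hs.1, hs.2])
        | (left; constructor <;> linarith [ht.1, ht.2])
        | (right; constructor <;> linarith [ht.1, ht.2])
    exact ⟨key c d h3 h4, key d c h4 h3⟩

theorem X_le (m : ℕ) (p : ℕ → ℚ) : X m p ≤ (m + 1) ^ 2 := by
  unfold X
  calc _ ≤ ∑ _j ∈ range (m + 1), (m + 1) := by
        apply sum_le_sum
        intro j hj
        calc _ ≤ ∑ _i ∈ range j, 1 := by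
              apply sum_le_sum
              intro i _
              split_ifs
              · exact c1_le_one _ _ _ _
              · exact Nat.zero_le _
          _ = j := by simp
          _ ≤ m + 1 := (mem_range.mp hj).le
    _ = (m + 1) ^ 2 := by simp [sq]

/-- `X` depends only on the points `0, …, m + 1`. -/
theorem X_congr {m : ℕ} {p q : ℕ → ℚ} (h : ∀ k ≤ m + 1, p k = q k) : X m p = X m q := by
  unfold X
  apply sum_congr rfl
  intro j hj
  apply sum_congr rfl
  intro i hi
  have := mem_range.mp hj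
  have := mem_range.mp hi
  rw [h i (by omega), h (i + 1) (by omega), h j (by omega), h (j + 1) (by omega)]

theorem IG_le {τ η : Fin 3} {w : Wd} {p : ℕ → ℚ} (h : Fit τ η w p) :
    IG τ η w ≤ X w.length p :=
  Nat.sInf_le ⟨p, h, rfl⟩

theorem Fit.ne {τ η : Fin 3} {w : Wd} {p : ℕ → ℚ} (h : Fit τ η w p) {a b : ℕ}
    (ha : a ≤ w.length + 1) (hb : b ≤ w.length + 1) (hab : a ≠ b) : p a ≠ p b :=
  fun e => hab (h.inj ha hb e)

theorem valid_iff (w : Wd) : Valid w ↔ VG 1 2 w := Iff.rfl

theorem InRun.le {w : Wd} {j k : ℕ} (h : InRun w j k) : k ≤ w.length := by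
  have := h.1; have := h.2.1; omega

theorem InRun.ne_one {w : Wd} {j k : ℕ} (h : InRun w j k) {i : ℕ} (h1 : j ≤ i) (h2 : i < k) :
    w[i]? ≠ some 1 := by
  have := h.2.2.2 (i - j) (by omega)
  rwa [show j + (i - j) = i by omega] at this

theorem InRun.mono {w : Wd} {j k : ℕ} (h : InRun w j k) {i : ℕ} (h1 : j < i) (h2 : i ≤ k) :
    InRun w j i :=
  ⟨h1, by have := h.le; omega, h.2.2.1, fun t ht => h.2.2.2 t (by omega)⟩

/-- A point lies in at most one run. -/
theorem InRun.unique {w : Wd} {j j' k : ℕ} (h : InRun w j k) (h' : InRun w j' k) : j = j' := by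
  by_contra hne
  rcases lt_or_gt_of_ne hne with hl | hl
  · rcases h'.2.2.1 with h0 | h0
    · omega
    · exact h.ne_one (i := j' - 1) (by omega) (by have := h'.1; omega) h0
  · rcases h.2.2.1 with h0 | h0
    · omega
    · exact h'.ne_one (i := j - 1) (by omega) (by have := h.1; omega) h0

theorem InRun.succ {w : Wd} {j k : ℕ} (h : InRun w j k) (h1 : k < w.length)
    (h2 : w[k]? ≠ some 1) : InRun w j (k + 1) := by
  have := h.1
  refine ⟨by omega, by omega, h.2.2.1, fun t ht => ?_⟩
  by_cases e : j + t = k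
  · rwa [e]
  · exact h.2.2.2 t (by omega)

/-- Every point whose letter is not `1` lies in a run. -/
theorem exists_inRun {w : Wd} {k : ℕ} (h1 : k < w.length) (h2 : w[k]? ≠ some 1) :
    ∃ j, InRun w j (k + 1) := by
  induction k with
  | zero =>
    refine ⟨0, by omega, by omega, Or.inl rfl, fun t ht => ?_⟩
    have : t = 0 := by omega
    subst this; simpa using h2
  | succ k ih =>
    by_cases h : w[k]? = some 1
    · refine ⟨k + 1, by omega, by omega, Or.inr (by simpa using h), fun t ht => ?_⟩
      have : t = 0 := by omega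
      subst this; simpa using h2
    · obtain ⟨j, hj⟩ := ih (by omega) h
      exact ⟨j, hj.succ h1 h2⟩

theorem mem_met {u v : ℚ} {w : Wd} {p : ℕ → ℚ} {j : ℕ} :
    j ∈ met u v w p ↔ ∃ k, InRun w j k ∧ ins u v (p k) := by
  unfold met
  simp only [mem_filter, mem_range, Finset.Nonempty]
  constructor
  · rintro ⟨_, k, _, h⟩; exact ⟨k, h⟩
  · rintro ⟨k, h1, h2⟩
    have := h1.le; have := h1.1
    exact ⟨by omega, k, by omega, h1, h2⟩

/-- An inner point inside the circle has a letter different from `1`. -/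
theorem Fit.ins_letter {τ η : Fin 3} {w : Wd} {p : ℕ → ℚ} (h : Fit τ η w p) {u v : ℚ}
    (ht : Thr u v) {i : ℕ} {x : Fin 3} (hx : w[i]? = some x) (hi : ins u v (p (i + 1))) :
    x ≠ 1 := by
  rintro rfl
  have := h.mem i 1 hx
  obtain ⟨t1, t2, t3, t4⟩ := ht
  simp at this
  rcases hi with hi | hi <;> linarith [this.1, this.2]

/-- A vertex is inside the circle exactly when it is the vertex `0`. -/
theorem ins_vertex {u v : ℚ} (ht : Thr u v) (τ : Fin 3) : ins u v (τ.val : ℚ) ↔ τ = 0 := by
  obtain ⟨t1, t2, t3, t4⟩ := ht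
  unfold ins
  fin_cases τ <;> simp
  · exact Or.inl t1
  · constructor <;> linarith
  · constructor <;> linarith

end Pool.Agent.MP_d5eec5_gt.H77
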