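import Mathlib

/-!
Planar knotoids as sliced diagrams.  A diagram is a word of elementary pieces read from bottom to
top; between two letters it meets a horizontal line in finitely many points, numbered from `0`,
left to right.  Two words describe isotopic diagrams of the plane exactly when they are related
by the isotopy moves of `Move` (Turaev, Freyd and Yetter; the endpoints are univalent vertices).
-/

set_option autoImplicit false

namespace Pool.Agent.MP_d5eec5_gt.H77

/-- Elementary pieces: a minimum, a maximum, a crossing (`cr true`: the strand that comes from the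
bottom left passes over), and an endpoint (`false`: tail, `true`: head) whose strand lies above it
(`up`) or below it (`dn`). -/
inductive Kind
  | cup | cap | cr (b : Bool) | up (e : Bool) | dn (e : Bool)
  deriving DecidableEq

open Kind

/-- An elementary piece with the position of its leftmost strand; all other strands are
vertical. -/
abbrev Gen := ℕ × Kind

/-- Number of strands at the bottom of a piece. -/
def win : Kind → ℕ
  | cup => 0 | cap => 2 | cr _ => 2 | up _ => 0 | dn _ => 1

/-- Number of strands at the top of a piece. -/
def wout : Kind → ℕ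
  | cup => 2 | cap => 0 | cr _ => 2 | up _ => 1 | dn _ => 0

/-- The local moves.  Isotopies of the plane: distant pieces commute, zigzags, a strand passes a
minimum or a maximum, an endpoint turns around.  Then Reidemeister I, II, III. -/
inductive Move : List Gen → List Gen → Prop
  | far (p q : ℕ) (k l : Kind) (h : p + win k ≤ q) :
      Move [(q, l), (p, k)] [(p, k), (q - win k + wout k, l)]
  | zig (p : ℕ) : Move [(p, cup), (p + 1, cap)] []
  | zag (p : ℕ) : Move [(p + 1, cup), (p, cap)] []
  | pcup (p : ℕ) (a : Bool) : Move [(p + 1, cup), (p, cr a)] [(p, cup), (p + 1, cr !a)]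
  | pcap (p : ℕ) (a : Bool) : Move [(p, cr a), (p + 1, cap)] [(p + 1, cr !a), (p, cap)]
  | endl (p : ℕ) (e : Bool) : Move [(p, up e), (p, cap)] [(p, dn e)]
  | endr (p : ℕ) (e : Bool) : Move [(p + 1, up e), (p, cap)] [(p, dn e)]
  | r1cup (p : ℕ) (a : Bool) : Move [(p, cup), (p, cr a)] [(p, cup)]
  | r1cap (p : ℕ) (a : Bool) : Move [(p, cr a), (p, cap)] [(p, cap)]
  | r2 (p : ℕ) (a : Bool) : Move [(p, cr a), (p, cr !a)] []
  | r3 (p : ℕ) (a b c : Bool) (h : a = c → b = a) :
      Move [(p, cr a), (p + 1, cr b), (p, cr c)] [(p + 1, cr c), (p, cr b), (p + 1, cr a)]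

/-- Cut the curve at its minima and maxima and number the monotone arcs consecutively from the
tail to the head, so that arcs that go up get even numbers.  `Loc d k x y`: the numbers `x` below
and `y` above the piece `k` obey this rule; if `d = true`, the earlier arc passes over. -/
def Loc (d : Bool) : Kind → List ℕ → List ℕ → Prop
  | cup, x, y => x = [] ∧ ∃ t, Odd t ∧ (y = [t, t + 1] ∨ y = [t + 1, t])
  | cap, x, y => y = [] ∧ ∃ t, Even t ∧ (x = [t, t + 1] ∨ x = [t + 1, t])
  | cr b, x, y => ∃ s t, x = [s, t] ∧ y = [t, s] ∧ (d = true → (b = true ↔ s < t))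
  | up e, x, y => x = [] ∧ ∃ t, y = [t] ∧ (Odd t ↔ e = true)
  | dn e, x, y => y = [] ∧ ∃ t, x = [t] ∧ (Even t ↔ e = true)

/-- `Num d l w l' C`: a numbering of the arcs of `w` with numbers `l` at the bottom and `l'` at
the top; `C` lists the numbers of the arcs whose lowest point lies in `w`. -/
inductive Num (d : Bool) : List ℕ → List Gen → List ℕ → List ℕ → Prop
  | nil (l : List ℕ) : Num d l [] l []
  | cons {l₁ l₂ x y l' C : List ℕ} {k : Kind} {w : List Gen} :
      Loc d k x y → Num d (l₁ ++ y ++ l₂) w l' C →
        Num d (l₁ ++ x ++ l₂) ((l₁.length, k) :: w) l' ((if x = [] then y else []) ++ C)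

/-- The piece is the endpoint `e`. -/
def IsEnd (e : Bool) (g : Gen) : Bool := g.2 = up e || g.2 = dn e

/-- `Arc false w`: the word `w` is a single arc from a tail to a head (one tail, one head, no
closed component).  `Arc true w`: moreover every crossing is first met on the over strand. -/
def Arc (d : Bool) (w : List Gen) : Prop :=
  w.countP (IsEnd false) = 1 ∧ w.countP (IsEnd true) = 1 ∧ ∃ C, Num d [] w [] C ∧ C.Nodup

/-- Knotoid diagrams in the plane. -/
def Diagram := {w : List Gen // Arc false w}

/-- Two diagrams differ by one local move. -/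
def Step (D D' : Diagram) : Prop :=
  ∃ u l r v, Move l r ∧ D.1 = u ++ l ++ v ∧ D'.1 = u ++ r ++ v

/-- Knotoids in the plane. -/
def Knotoid := Quot Step

/-- The number of crossings of a diagram. -/
def cross (w : List Gen) : ℕ := w.countP fun g => g.2 = cr true || g.2 = cr false

/-- The crossing number. -/
noncomputable def crn (K : Knotoid) : ℕ :=
  sInf {n | ∃ D : Diagram, Quot.mk Step D = K ∧ cross D.1 = n}

/-- The height.  An isotopy of the plane makes a shortest path from the tail to the head of a
diagram a horizontal segment, so the height is the least number `b` of strands between the two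
endpoints, over all diagrams in which the endpoints lie side by side. -/
noncomputable def ht (K : Knotoid) : ℕ :=
  sInf {b | ∃ (D : Diagram) (u v : List Gen) (a : ℕ), Quot.mk Step D = K ∧
    D.1 = u ++ [(a, up false), (a + 1 + b, up true)] ++ v}

/-- The knotoids of crossing number `n` that have a descending diagram. -/
def DescSet (n : ℕ) : Set Knotoid :=
  {K | crn K = n ∧ ∃ D : Diagram, Quot.mk Step D = K ∧ Arc true D.1}

end Pool.Agent.MP_d5eec5_gt.H77
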