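import Pool.Agent.MP_d5eec5_gt.H77.T

/-! Assembly of the knot side: descending knotoids correspond to pairs of a side and a reduced
word; the crossing number is `I` and the height is the number of letters `1`. -/

set_option autoImplicit false

namespace Pool.Agent.MP_d5eec5_gt.H77

open Pool.Agent.MP_d5eec5_gt.H48 Kind

/-- The steps used in the assembly. -/
structure Steps : Prop where
  sl : StmtSL
  lf : StmtLF
  ld : StmtLD
  mn : StmtMin
  wm1 : StmtWM1
  wm2 : StmtWM2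
  wm3 : StmtWM3
  c1 : StmtCol1
  c2 : StmtCol2
  c3 : StmtCol3
  br : StmtBR
  nm : StmtNorm
  t1 : StmtT1
  t3 : StmtT3
  r2 : StmtR2

theorem WR.even {v v' : Wd} (h : WR v v') (hv : Even v.length) : Even v'.length := by
  cases h <;> simp only [List.length_append, List.length_cons, Nat.even_iff] at hv ⊢ <;> omega

theorem Steps.wr (S : Steps) {L L' : Line} (hL : Lab L) (hL' : Lab L')
    (h : WR (wordOf L) (wordOf L')) : FE 0 (LD L) (LD L') := by
  generalize e : wordOf L = v at h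
  generalize e' : wordOf L' = v' at h
  cases h with
  | bt a x b => exact S.wm2 L L' a x b hL hL' e e'
  | hd x y v hx hy =>
    by_cases hxy : x = y
    · subst hxy; exact S.wm1 L L' hL hL' (e.trans e'.symm)
    · have : (x = 0 ∧ y = 1) ∨ (x = 1 ∧ y = 0) := by omega
      rcases this with ⟨rfl, rfl⟩ | ⟨rfl, rfl⟩
      · exact S.wm3.1 L L' v hL hL' e e'
      · exact (S.wm3.1 L' L v hL' hL e' e).symm
  | lt x y v hx hy =>
    by_cases hxy : x = y
    · subst hxy; exact S.wm1 L L' hL hL' (e.trans e'.symm)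
    · have : (x = 1 ∧ y = 2) ∨ (x = 2 ∧ y = 1) := by omega
      rcases this with ⟨rfl, rfl⟩ | ⟨rfl, rfl⟩
      · exact S.wm3.2 L L' v hL hL' e e'
      · exact (S.wm3.2 L' L v hL' hL e' e).symm

theorem Lab.even {L : Line} (h : Lab L) : Even (wordOf L).length := by
  rw [wordOf_length]; exact h.1

theorem Steps.wrs (S : Steps) {v v' : Wd} (h : Relation.ReflTransGen WR v v') {L L' : Line}
    (hL : Lab L) (hL' : Lab L') (e : wordOf L = v) (e' : wordOf L' = v') :
    FE 0 (LD L) (LD L') := by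
  induction h using Relation.ReflTransGen.head_induction_on generalizing L with
  | refl => exact S.wm1 L L' hL hL' (e.trans e'.symm)
  | head h _ ih =>
    obtain ⟨M, hM, eM, _⟩ := S.br.2 _ (h.even (e ▸ hL.even))
    exact (S.wr hL hM (by rw [e, eM]; exact h)).trans (ih hM eM)

theorem pad_even (c : Bool) (x : Wd) : Even (pad c x).length := by
  unfold pad
  rw [Nat.even_iff]
  cases c <;> split_ifs with h1 h2 h2 <;> simp at * <;> omega

theorem pad_count (c : Bool) (x : Wd) : (pad c x).count 1 = x.count 1 := by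
  unfold pad
  split_ifs <;> simp

theorem Steps.pad_le (S : Steps) (c : Bool) (x : Wd) : I (pad c x) ≤ I x := by
  obtain ⟨_, _, h3, h4⟩ := S.r2
  unfold pad
  split_ifs
  · exact (h4 _).trans (h3 x)
  · simpa using h3 x
  · exact h4 x
  · simp

/-- The flat class of `w` is trivial. -/
def Triv (w : List Gen) : Prop := ∃ L, Lab L ∧ wordOf L = [] ∧ FE 0 w (LD L)

/-- The flat class of `w` is given by the side `c` and the word `x`. -/
def Cls (w : List Gen) (c : Bool) (x : Wd) : Prop :=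
  ∀ L, Lab L → wordOf L = pad c x → FE 0 w (LD L)

theorem Steps.nf_line (S : Steps) {u v : List Gen} {a b : ℕ}
    (h : Arc false (u ++ ends a b ++ v)) :
    Triv (u ++ ends a b ++ v) ∨ ∃ c x, Valid x ∧ Cls (u ++ ends a b ++ v) c x ∧
      I x ≤ cross (u ++ ends a b ++ v) ∧ x.count 1 ≤ b := by
  obtain ⟨L, hL, h1, h2, h3⟩ := S.lf u v a b h
  obtain ⟨h4, h5⟩ := S.br.1 L hL
  rcases S.nm _ hL.even with h6 | ⟨c, x, hx, h6, h7, h8⟩
  · obtain ⟨M, hM, eM, _⟩ := S.br.2 [] (by simp)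
    exact Or.inl ⟨M, hM, eM, h1.trans (S.wrs h6 hL hM rfl eM)⟩
  · exact Or.inr ⟨c, x, hx, fun M hM eM => h1.trans (S.wrs h6 hL hM rfl eM), by omega, by omega⟩

theorem Steps.nf_any (S : Steps) {w : List Gen} (h : Arc false w) :
    Triv w ∨ ∃ c x, Valid x ∧ Cls w c x ∧ I x ≤ cross w := by
  obtain ⟨u, v, a, b, h1, h2⟩ := S.sl w h.ok h.1 h.2.1
  rcases S.nf_line (S.t1 _ _ h1 h) with ⟨L, hL, e, h3⟩ | ⟨c, x, hx, h3, h4, _⟩
  · exact Or.inl ⟨L, hL, e, h1.trans h3⟩
  · exact Or.inr ⟨c, x, hx, fun M hM eM => h1.trans (h3 M hM eM), h2 ▸ h4⟩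

theorem Steps.uniq (S : Steps) {w : List Gen} {c : Bool} {x : Wd} (hx : Valid x)
    (h : Cls w c x) : ¬ Triv w ∧ ∀ c' x', Valid x' → Cls w c' x' → c' = c ∧ x' = x := by
  obtain ⟨A, γ, P, hA, h1, h2, h3⟩ := S.c3 c x hx
  obtain ⟨L, hL, e, _⟩ := S.br.2 _ (pad_even c x)
  have key : ∀ M, Lab M → FE 0 w (LD M) → ∃ t ∈ P false, act γ (wordOf M) t ∈ P true := by
    intro M hM hw
    refine (S.c2 A γ P M hM).mp (S.c1 A γ P (LD L) (LD M) hA ((h L hL e).symm.trans hw)
      (LD_countP L _) (LD_countP L _) ((S.c2 A γ P L hL).mpr (e ▸ h1)))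
  constructor
  · rintro ⟨M, hM, eM, hw⟩
    obtain ⟨t, ht, ht'⟩ := key M hM hw
    rw [eM] at ht'
    exact h2 t ht ht'
  · intro c' x' hx' h'
    obtain ⟨M, hM, eM, _⟩ := S.br.2 _ (pad_even c' x')
    exact h3 c' x' hx' (eM ▸ key M hM (h' M hM eM))

theorem Cls.of_fe {w w' : List Gen} {c : Bool} {x : Wd} (h : Cls w c x) (e : FE 0 w' w) :
    Cls w' c x := fun L hL eL => e.trans (h L hL eL)

theorem Triv.of_fe {w w' : List Gen} (h : Triv w) (e : FE 0 w' w) : Triv w' := by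
  obtain ⟨L, hL, eL, h⟩ := h
  exact ⟨L, hL, eL, e.trans h⟩

theorem Steps.lift (S : Steps) {D : Diagram} (hD : Arc true D.1) {w : List Gen}
    (h : FE 0 D.1 w) : ∃ D' : Diagram, Quot.mk Step D' = Quot.mk Step D ∧ fl D'.1 = fl w := by
  have hw := S.t1 _ _ h D.2
  obtain ⟨z, e, hz⟩ := hw.lift
  exact ⟨⟨z, hz.weaken⟩, S.t3 _ _ hz hD ((FE.of_fl hz.ok e).trans h.symm), e⟩

theorem Steps.crn_le (S : Steps) {D : Diagram} (hD : Arc true D.1) {w : List Gen}
    (h : FE 0 D.1 w) : crn (Quot.mk Step D) ≤ cross w := by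
  obtain ⟨D', e, e'⟩ := S.lift hD h
  exact Nat.sInf_le ⟨D', e, by rw [← cross_fl, e', cross_fl]⟩

theorem fl_ends {z : List Gen} {a b : ℕ} (h : fl z = fl (ends a b)) : z = ends a b := by
  match z, h with
  | [(p, k), (q, l)], h =>
    simp only [ends, fl_cons, fl_nil, List.cons.injEq, Prod.mk.injEq, and_true] at h
    obtain ⟨⟨rfl, h1⟩, rfl, h2⟩ := h
    rcases flK_eq_iff.mp h1 with rfl | ⟨_, _, _, h1⟩
    · rcases flK_eq_iff.mp h2 with rfl | ⟨_, _, _, h2⟩
      · rfl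
      · cases h2
    · cases h1
  | [], h => simp [ends] at h
  | [_], h => simp [ends] at h
  | _ :: _ :: _ :: _, h => simp [ends] at h

theorem Steps.ht_mem (S : Steps) {D : Diagram} (hD : Arc true D.1) {u v : List Gen} {a b : ℕ}
    (h : FE 0 D.1 (u ++ ends a b ++ v)) : ∃ (D' : Diagram) (u' v' : List Gen) (a' : ℕ),
      Quot.mk Step D' = Quot.mk Step D ∧
        D'.1 = u' ++ [(a', up false), (a' + 1 + b, up true)] ++ v' := by
  obtain ⟨D', e, e'⟩ := S.lift hD h
  obtain ⟨z₁, v', e1, e2, _⟩ := fl_eq_append e'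
  obtain ⟨u', z, e3, _, e4⟩ := fl_eq_append e2
  exact ⟨D', u', v', a, e, by rw [e1, e3, fl_ends e4]; rfl⟩

theorem Steps.min_LD (S : Steps) {L : Line} (hL : Lab L) :
    ∃ w, FE 0 (LD L) w ∧ 2 * cross w = XL L := by
  obtain ⟨w₁, h1, e1⟩ := S.mn _ hL.dbl_bot
  obtain ⟨w₂, h2, e2⟩ := S.mn _ hL.dbl_top
  have h3 := h2.mir (bot_ok hL.dbl_top)
  rw [bot_cnt hL.dbl_top] at h3
  refine ⟨w₁ ++ ends L.a.length L.b.length ++ mir w₂, ?_, ?_⟩
  · refine (FE.left _ ?_).trans (FE.right _ (FE.right _ h1))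
    rw [cnt_append, bot_cnt hL.dbl_bot, ends_cnt, botIds_length, ← topIds_length]
    exact h3
  · have : cross (ends L.a.length L.b.length) = 0 := by simp [ends, cross]
    rw [cross_append, cross_append, cross_mir, this, XL]
    omega

theorem Steps.crn_eq (S : Steps) {D : Diagram} (hD : Arc true D.1) {c : Bool} {x : Wd}
    (hx : Valid x) (h : Cls D.1 c x) : crn (Quot.mk Step D) = I x := by
  apply le_antisymm
  · obtain ⟨L, hL, e, e'⟩ := S.br.2 _ (pad_even c x)
    obtain ⟨w, h1, h2⟩ := S.min_LD hL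
    have := S.crn_le hD ((h L hL e).trans h1)
    have := S.pad_le c x
    omega
  · obtain ⟨D', e, e'⟩ := Nat.sInf_mem
      (s := {n | ∃ D' : Diagram, Quot.mk Step D' = Quot.mk Step D ∧ cross D'.1 = n})
      ⟨_, D, rfl, rfl⟩
    obtain ⟨u1, u2⟩ := S.uniq hx (h.of_fe (t4 e))
    rcases S.nf_any D'.2 with h1 | ⟨c', x', hx', h1, h2⟩
    · exact absurd h1 u1
    · obtain ⟨_, rfl⟩ := u2 c' x' hx' h1
      exact h2.trans e'.le

theorem Steps.ht_eq (S : Steps) {D : Diagram} (hD : Arc true D.1) {c : Bool} {x : Wd}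
    (hx : Valid x) (h : Cls D.1 c x) : ht (Quot.mk Step D) = x.count 1 := by
  obtain ⟨L, hL, e, _⟩ := S.br.2 _ (pad_even c x)
  have h0 := S.ht_mem hD (h L hL e)
  rw [← (S.br.1 L hL).2, e, pad_count] at h0
  apply le_antisymm
  · exact Nat.sInf_le h0
  · obtain ⟨D', u, v, a, e1, e2⟩ := Nat.sInf_mem
      (s := {b | ∃ (D' : Diagram) (u v : List Gen) (a : ℕ), Quot.mk Step D' = Quot.mk Step D ∧
        D'.1 = u ++ [(a, up false), (a + 1 + b, up true)] ++ v}) ⟨_, h0⟩
    obtain ⟨u1, u2⟩ := S.uniq hx (h.of_fe (t4 e1))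
    have hA := D'.2
    rw [e2] at hA u1 u2
    rcases S.nf_line hA with h1 | ⟨c', x', hx', h1, _, h2⟩
    · exact absurd h1 u1
    · obtain ⟨_, rfl⟩ := u2 c' x' hx' h1
      exact h2

theorem cross_LD_nil {L : Line} (h : wordOf L = []) : cross (LD L) = 0 := by
  have h1 := wordOf_length L
  rw [h, L.m_eq] at h1
  obtain ⟨a, b, c⟩ := L
  simp only [List.length_nil] at h1
  have ha : a = [] := List.length_eq_zero_iff.mp (by omega)
  have hb : b = [] := List.length_eq_zero_iff.mp (by omega)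
  have hc : c = [] := List.length_eq_zero_iff.mp (by omega)
  subst ha hb hc
  simp [LD, botIds, topIds, Line.all, Line.m, top, bot_cons, ends, cross, mir, mirK]

theorem Steps.exists_rep (S : Steps) (z : Bool × Wd) :
    ∃ D : Diagram, Arc true D.1 ∧ Cls D.1 z.1 z.2 := by
  obtain ⟨L, hL, e, _⟩ := S.br.2 _ (pad_even z.1 z.2)
  obtain ⟨w, e', hw⟩ := (S.ld L hL).lift
  exact ⟨⟨w, hw.weaken⟩, hw, fun M hM eM =>
    (FE.of_fl hw.ok e').trans (S.wm1 L M hL hM (e.trans eM.symm))⟩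

/-- The knotoid of a side and a word. -/
noncomputable def Steps.phi (S : Steps) (z : Bool × Wd) : Knotoid :=
  Quot.mk Step (S.exists_rep z).choose

theorem Steps.phi_eq (S : Steps) {D : Diagram} (hD : Arc true D.1) {c : Bool} {x : Wd}
    (h : Cls D.1 c x) : S.phi (c, x) = Quot.mk Step D := by
  obtain ⟨h1, h2⟩ := (S.exists_rep (c, x)).choose_spec
  obtain ⟨L, hL, e, _⟩ := S.br.2 _ (pad_even c x)
  exact S.t3 _ _ h1 hD ((h2 L hL e).trans (h L hL e).symm)

theorem Steps.phi_inj (S : Steps) : Set.InjOn S.phi {z | Valid z.2} := by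
  intro z hz z' hz' e
  obtain ⟨_, h2⟩ := (S.exists_rep z).choose_spec
  obtain ⟨_, h2'⟩ := (S.exists_rep z').choose_spec
  obtain ⟨e1, e2⟩ := (S.uniq hz h2).2 _ _ hz' (h2'.of_fe (t4 e))
  exact Prod.ext e1.symm e2.symm

theorem Steps.ht_phi (S : Steps) {z : Bool × Wd} (hz : Valid z.2) :
    ht (S.phi z) = z.2.count 1 :=
  S.ht_eq (S.exists_rep z).choose_spec.1 hz (S.exists_rep z).choose_spec.2

theorem Steps.descSet (S : Steps) {n : ℕ} (hn : 1 ≤ n) :
    DescSet n = S.phi '' {z | Valid z.2 ∧ I z.2 = n} := by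
  ext K
  constructor
  · rintro ⟨h1, D, rfl, hD⟩
    rcases S.nf_any D.2 with ⟨L, _, e, h2⟩ | ⟨c, x, hx, h2, _⟩
    · have := S.crn_le hD h2
      rw [cross_LD_nil e] at this
      omega
    · exact ⟨(c, x), ⟨hx, (S.crn_eq hD hx h2).symm.trans h1⟩, S.phi_eq hD h2⟩
  · rintro ⟨z, ⟨hz, rfl⟩, rfl⟩
    obtain ⟨h1, h2⟩ := (S.exists_rep z).choose_spec
    exact ⟨S.crn_eq h1 hz h2, _, rfl, h1⟩

/-- The average height of the descending knotoids. -/
def StmtMain : Prop := ∃ c C : ℝ, 0 < c ∧ ∃ N : ℕ, ∀ n ≥ N,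
  (DescSet n).Finite ∧ (DescSet n).Nonempty ∧
    c * (√n * Real.log n) ≤ (∑ᶠ K ∈ DescSet n, (ht K : ℝ)) / (DescSet n).ncard ∧
    (∑ᶠ K ∈ DescSet n, (ht K : ℝ)) / (DescSet n).ncard ≤ C * (√n * Real.log n)

theorem Steps.main (S : Steps) (hG : Geo I) (hC : Count) : StmtMain := by
  obtain ⟨hfin, c, C, hc, N, hN⟩ := hC I hG
  refine ⟨c, C, hc, max N 1, fun n hn => ?_⟩
  obtain ⟨hne, h1, h2⟩ := hN n (le_of_max_le_left hn) (hfin n).toFinset (by simp)
  set F := (hfin n).toFinset with hF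
  have e : {z : Bool × Wd | Valid z.2 ∧ I z.2 = n} = ↑((Finset.univ : Finset Bool) ×ˢ F) := by
    ext z; simp [hF]
  have hinj : Set.InjOn S.phi ↑((Finset.univ : Finset Bool) ×ˢ F) :=
    S.phi_inj.mono (by rw [← e]; exact fun z hz => hz.1)
  have hpos : (0 : ℝ) < F.card := by exact_mod_cast hne.card_pos
  have hsum : ∑ᶠ K ∈ DescSet n, (ht K : ℝ) = 2 * ∑ w ∈ F, (w.count 1 : ℝ) := by
    rw [S.descSet (le_of_max_le_right hn), e, finsum_mem_image hinj, finsum_mem_coe_finset,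
      Finset.sum_product, Fintype.sum_bool, two_mul]
    congr 1 <;>
    · apply Finset.sum_congr rfl
      intro w hw
      rw [S.ht_phi (z := (_, w)) ((hfin n).mem_toFinset.mp hw).1]
  have hcard : ((DescSet n).ncard : ℝ) = 2 * F.card := by
    rw [S.descSet (le_of_max_le_right hn), e, hinj.ncard_image,
      Set.ncard_coe_finset]
    simp
  refine ⟨?_, ?_, ?_, ?_⟩
  · rw [S.descSet (le_of_max_le_right hn), e]
    exact (Finset.finite_toSet _).image _
  · rw [S.descSet (le_of_max_le_right hn), e]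
    obtain ⟨w, hw⟩ := hne
    exact ⟨_, (true, w), by simpa using hw, rfl⟩
  · rw [hsum, hcard, le_div_iff₀ (by positivity)]
    linarith
  · rw [hsum, hcard, div_le_iff₀ (by positivity)]
    linarith

end Pool.Agent.MP_d5eec5_gt.H77
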