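import Pool.Agent.MP_d5eec5_gt.H48.Word

/-!
Geometry of cutting words.  The circle is `[0, 3)` with the vertices `0` (infinity), `1`, `2`;
the letter `x` is the open interval `(x, x + 1)`.  A placement `p` of a word of length `m` has the
points `p 0, …, p (m + 1)`; the chord `k ≤ m` joins `p k` and `p (k + 1)`, and two chords lie on
the same side of the circle when their indices have the same parity.
-/

set_option autoImplicit false

namespace Pool.Agent.MP_d5eec5_gt.H77

open Pool.Agent.MP_d5eec5_gt.H48 Finset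

/-- `x` lies strictly between `a` and `b`. -/
def btw (a b x : ℚ) : Prop := min a b < x ∧ x < max a b

instance (a b x : ℚ) : Decidable (btw a b x) := by unfold btw; infer_instance

/-- `1` if the chords `a b` and `c d` interleave, else `0`. -/
def c1 (a b c d : ℚ) : ℕ := if (btw a b c ↔ btw a b d) then 0 else 1

/-- The number of interleaved pairs of chords on the same side. -/
def X (m : ℕ) (p : ℕ → ℚ) : ℕ :=
  ∑ j ∈ range (m + 1), ∑ i ∈ range j,
    if i % 2 = j % 2 then c1 (p i) (p (i + 1)) (p j) (p (j + 1)) else 0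

/-- `p` places the word `w` from the vertex `τ` to the vertex `η`. -/
structure Fit (τ η : Fin 3) (w : Wd) (p : ℕ → ℚ) : Prop where
  h0 : p 0 = (τ.val : ℚ)
  h1 : p (w.length + 1) = (η.val : ℚ)
  mem : ∀ j x, w[j]? = some x → (x.val : ℚ) < p (j + 1) ∧ p (j + 1) < (x.val : ℚ) + 1
  inj : Set.InjOn p (Set.Iic (w.length + 1))

/-- The least number of interleaved pairs. -/
noncomputable def IG (τ η : Fin 3) (w : Wd) : ℕ :=
  sInf {n | ∃ p, Fit τ η w p ∧ X w.length p = n}

/-- The self-intersection number of a word from the tail `1` to the head `2`. -/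
noncomputable def I (w : Wd) : ℕ := IG 1 2 w

/-- Reduced words from `τ` to `η`. -/
def VG (τ η : Fin 3) (w : Wd) : Prop :=
  w.head? = some (τ + 1) ∧ w.getLast? = some (η + 1) ∧ w.IsChain (· ≠ ·)

/-- Inside the circle around the vertex `0` through `u` and `v`. -/
def ins (u v x : ℚ) : Prop := x ≤ u ∨ v ≤ x

instance (u v x : ℚ) : Decidable (ins u v x) := by unfold ins; infer_instance

/-- Admissible thresholds. -/
def Thr (u v : ℚ) : Prop := 0 ≤ u ∧ u < 1 ∧ 2 < v ∧ v ≤ 3

/-- The number of chords with exactly one end inside the circle. -/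
def kap (u v : ℚ) (m : ℕ) (p : ℕ → ℚ) : ℕ :=
  ((range (m + 1)).filter fun k => ¬ (ins u v (p k) ↔ ins u v (p (k + 1)))).card

/-- The point `k` (letter `k - 1`) belongs to the run around the vertex `0` that starts with the
letter `j`. -/
def InRun (w : Wd) (j k : ℕ) : Prop := j < k ∧ St 1 w j (k - j)

instance (w : Wd) (j k : ℕ) : Decidable (InRun w j k) := by unfold InRun; infer_instance

/-- The runs with a point inside the circle. -/
def met (u v : ℚ) (w : Wd) (p : ℕ → ℚ) : Finset ℕ :=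
  (range w.length).filter fun j =>
    ((range (w.length + 1)).filter fun k => InRun w j k ∧ ins u v (p k)).Nonempty

/-- Every run meets the inside of the circle in consecutive points. -/
def Conv (u v : ℚ) (w : Wd) (p : ℕ → ℚ) : Prop :=
  ∀ j a b c, InRun w j a → InRun w j c → a < b → b < c → ins u v (p a) → ins u v (p c) →
    ins u v (p b)

/-- Insert a full turn after the letter `i - 1`, which is `x`. -/
def insAt (i : ℕ) (x : Fin 3) (w : Wd) : Wd := w.take i ++ [2 - x, x] ++ w.drop i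

/-- Remove the points `i + 1` and `i + 2`. -/
def drop2 (i : ℕ) (p : ℕ → ℚ) : ℕ → ℚ := fun k => if k ≤ i then p k else p (k + 2)

/-- Remove the point `1`. -/
def drop1 (p : ℕ → ℚ) : ℕ → ℚ := fun k => if k = 0 then p 0 else p (k + 1)

/-- Existence, rotation and reversal. -/
def StmtG0 : Prop :=
  (∀ τ η w, τ ≠ η → ∃ p, Fit τ η w p ∧ X w.length p = IG τ η w) ∧
  (∀ τ η w, IG (τ + 1) (η + 1) (w.map (· + 1)) = IG τ η w) ∧
  (∀ τ η (w : Wd), IG η τ w.reverse = IG τ η w)

/-- Bookkeeping for the removal of two consecutive points. -/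
def StmtSplit2 : Prop := ∀ (m i : ℕ) (p : ℕ → ℚ), Set.InjOn p (Set.Iic (m + 3)) → i ≤ m →
  X (m + 2) p + ∑ k ∈ (range (m + 1)).erase i,
      (if k % 2 = i % 2 then c1 (p i) (p (i + 3)) (drop2 i p k) (drop2 i p (k + 1)) else 0) =
    X m (drop2 i p) + c1 (p i) (p (i + 1)) (p (i + 2)) (p (i + 3)) +
      ∑ k ∈ (range (m + 1)).erase i,
        if k % 2 = i % 2 then
          c1 (p i) (p (i + 1)) (drop2 i p k) (drop2 i p (k + 1)) +
            c1 (p (i + 2)) (p (i + 3)) (drop2 i p k) (drop2 i p (k + 1))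
        else c1 (p (i + 1)) (p (i + 2)) (drop2 i p k) (drop2 i p (k + 1))

/-- Bookkeeping for the removal of the first inner point. -/
def StmtSplit1 : Prop := ∀ (m : ℕ) (p : ℕ → ℚ),
  X (m + 1) p + ∑ k ∈ range m,
      (if k % 2 = 1 then c1 (p 0) (p 2) (p (k + 2)) (p (k + 3)) else 0) =
    X m (drop1 p) + ∑ k ∈ range m,
      if k % 2 = 1 then c1 (p 1) (p 2) (p (k + 2)) (p (k + 3))
      else c1 (p 0) (p 1) (p (k + 2)) (p (k + 3))

/-- Delete a full turn at a monogon of the run. -/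
def StmtDel : Prop := ∀ τ η w p j, VG τ η w → Fit τ η w p → St 1 w j 3 →
  ∃ u v p' i k, Thr u v ∧ Fit τ η (del 1 j w) p' ∧
    X (del 1 j w).length p' + kap u v w.length p ≤ X w.length p + 1 ∧
    InRun w j k ∧ p k = u ∧ InRun w j i ∧ ins u v (p i) ∧ ¬ ins u v (p (i + 1))

/-- Every run with a point inside enters and leaves the circle. -/
def StmtKap : Prop := ∀ τ η w p u v, VG τ η w → Fit τ η w p → Thr u v →
  2 * (met u v w p).card ≤ kap u v w.length p

/-- Insert a full turn along the circle at a chord that leaves it. -/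
def StmtIns : Prop := ∀ τ η w p u v i x, Fit τ η w p → Thr u v → w[i]? = some x →
  ins u v (p (i + 1)) → ¬ ins u v (p (i + 2)) →
  ∃ p' u' v', Thr u' v' ∧ Fit τ η (insAt (i + 1) x w) p' ∧
    X (w.length + 2) p' + 1 ≤ X w.length p + kap u v w.length p ∧
    kap u' v' (w.length + 2) p' = kap u v w.length p ∧
    ins u' v' (p' (i + 3)) ∧ ¬ ins u' v' (p' (i + 4))

/-- A circle that meets exactly `r` runs. -/
def StmtSw : Prop := ∀ τ η w p r, Fit τ η w p → r ≤ (runs 1 w 1).card →
  ∃ u v, Thr u v ∧ (met u v w p).card = r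

/-- Pull the points of the gaps into the circle. -/
def StmtZn : Prop := ∀ τ η w p u v, VG τ η w → Fit τ η w p → Thr u v →
  ∃ p' u' v', Thr u' v' ∧ Fit τ η w p' ∧ X w.length p' ≤ X w.length p ∧
    met u' v' w p' = met u v w p ∧ Conv u' v' w p'

/-- Without gaps every run crosses the circle at most twice. -/
def StmtCl : Prop := ∀ τ η w p u v, VG τ η w → Fit τ η w p → Thr u v → Conv u v w p →
  kap u v w.length p ≤ 2 * (met u v w p).card + (if τ = 0 ∨ η = 0 then 1 else 0) ∧
    ∀ j ∈ met u v w p, ∃ i, InRun w j i ∧ ins u v (p i) ∧ ¬ ins u v (p (i + 1))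

/-- Turning points of opposite kinds on one edge force a crossing. -/
def StmtSZ : Prop := ∀ τ η w p (A B : Finset ℕ), w.IsChain (· ≠ ·) → Fit τ η w p →
  (∀ i ∈ A, ∀ j ∈ B, Opp w i j) → A.card * B.card ≤ X w.length p

/-- An innermost backtrack can be removed. -/
def StmtR1 : Prop := ∀ v : Wd, ¬ v.IsChain (· ≠ ·) →
  ∃ a x b, v = a ++ x :: x :: b ∧ I (a ++ b) ≤ I v

/-- The letters next to the tail and to the head. -/
def StmtR2 : Prop :=
  (∀ x (v : Wd), (x :: v).IsChain (· ≠ ·) → x ≠ 2 → I v ≤ I (x :: v)) ∧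
  (∀ x (v : Wd), (v ++ [x]).IsChain (· ≠ ·) → x ≠ 0 → I v ≤ I (v ++ [x])) ∧
  (∀ v : Wd, I (0 :: v) ≤ I v) ∧ (∀ v : Wd, I (v ++ [2]) ≤ I v)

/-- Deletion around the vertex `0`. -/
def StmtKF : Prop := ∀ (τ η : Fin 3) (w : Wd) (s : ℕ) (S : Finset ℕ), τ ≠ η → VG τ η w → 1 ≤ s →
  (∀ p ∈ S, St 1 w p (2 * s + 1)) → ∃ κ : ℕ → ℕ → ℕ,
    (∀ p ∈ S, ∀ p' ∈ S, p ≠ p' → s ≤ κ p p' + κ p' p) ∧
    ∀ p ∈ S, IG τ η (del s p w) + 1 + ∑ p' ∈ S.erase p, κ p p' ≤ IG τ η w

/-- Insertion around the vertex `0`. -/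
def StmtEF : Prop := ∀ (τ η : Fin 3) (w : Wd) (r : ℕ), τ ≠ η → VG τ η w →
  r ≤ (runs 1 w 1).card → ∃ R : Finset ℕ, R.card = r ∧ ∀ p ∈ R, ∀ s : ℕ, ∃ w',
    VG τ η w' ∧ St 1 w' p (2 * s + 1) ∧ del s p w' = w ∧
      IG τ η w' + s ≤ IG τ η w + (2 * r + (if τ = 0 ∨ η = 0 then 1 else 0)) * s

end Pool.Agent.MP_d5eec5_gt.H77
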