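import Pool.Agent.MP_d5eec5_gt.H77.KSpec

/-! Basic facts on flat equivalence. -/

set_option autoImplicit false

namespace Pool.Agent.MP_d5eec5_gt.H77

open Pool.Agent.MP_d5eec5_gt.H48 Kind

@[simp] theorem cnt_nil (n : ℕ) : cnt n [] = n := rfl
@[simp] theorem cnt_cons (n : ℕ) (g : Gen) (w : List Gen) :
    cnt n (g :: w) = cnt (n - win g.2 + wout g.2) w := rfl
@[simp] theorem ok_nil (n : ℕ) : Ok n [] := trivial
@[simp] theorem ok_cons (n : ℕ) (g : Gen) (w : List Gen) :
    Ok n (g :: w) ↔ g.1 + win g.2 ≤ n ∧ Ok (n - win g.2 + wout g.2) w := Iff.rfl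

theorem cnt_append (n : ℕ) (u v : List Gen) : cnt n (u ++ v) = cnt (cnt n u) v := by
  induction u generalizing n with
  | nil => rfl
  | cons g u ih => simp [ih]

theorem ok_append (n : ℕ) (u v : List Gen) : Ok n (u ++ v) ↔ Ok n u ∧ Ok (cnt n u) v := by
  induction u generalizing n with
  | nil => simp
  | cons g u ih => simp [ih, and_assoc]

@[simp] theorem win_flK (k : Kind) : win (flK k) = win k := by cases k <;> rfl
@[simp] theorem wout_flK (k : Kind) : wout (flK k) = wout k := by cases k <;> rfl
@[simp] theorem flK_flK (k : Kind) : flK (flK k) = flK k := by cases k <;> rfl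
@[simp] theorem fl_nil : fl [] = [] := rfl
@[simp] theorem fl_cons (g : Gen) (w : List Gen) : fl (g :: w) = (g.1, flK g.2) :: fl w := rfl
@[simp] theorem fl_append (u v : List Gen) : fl (u ++ v) = fl u ++ fl v := List.map_append
@[simp] theorem fl_length (w : List Gen) : (fl w).length = w.length := List.length_map _

theorem flK_eq_iff {k l : Kind} : flK k = flK l ↔ k = l ∨ ∃ a b, k = cr a ∧ l = cr b := by
  cases k <;> cases l <;> simp [flK]

theorem cnt_fl (n : ℕ) (w : List Gen) : cnt n (fl w) = cnt n w := by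
  induction w generalizing n with
  | nil => rfl
  | cons g w ih => simp [ih]

theorem ok_fl (n : ℕ) (w : List Gen) : Ok n (fl w) ↔ Ok n w := by
  induction w generalizing n with
  | nil => simp
  | cons g w ih => simp [ih]

theorem cnt_of_fl {w w' : List Gen} (h : fl w = fl w') (n : ℕ) : cnt n w = cnt n w' := by
  rw [← cnt_fl, h, cnt_fl]

theorem ok_of_fl {w w' : List Gen} (h : fl w = fl w') (n : ℕ) : Ok n w ↔ Ok n w' := by
  rw [← ok_fl, h, ok_fl]

theorem cross_cons (g : Gen) (w : List Gen) :
    cross (g :: w) = cross w + if flK g.2 = cr true then 1 else 0 := by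
  obtain ⟨p, k⟩ := g
  unfold cross
  rw [List.countP_cons]
  cases k <;> simp [flK]

theorem cross_append (u v : List Gen) : cross (u ++ v) = cross u + cross v :=
  List.countP_append

theorem cross_fl (w : List Gen) : cross (fl w) = cross w := by
  induction w with
  | nil => rfl
  | cons g w ih => simp [cross_cons, ih]

theorem isEnd_flK (e : Bool) (p : ℕ) (k : Kind) : IsEnd e (p, flK k) = IsEnd e (p, k) := by
  cases k <;> simp [flK, IsEnd]

theorem countP_fl (e : Bool) (w : List Gen) :
    (fl w).countP (IsEnd e) = w.countP (IsEnd e) := by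
  induction w with
  | nil => rfl
  | cons g w ih => simp only [fl_cons, List.countP_cons, ih, isEnd_flK]

theorem fl_eq_append {w u v : List Gen} (h : fl w = fl (u ++ v)) :
    ∃ u' v', w = u' ++ v' ∧ fl u' = fl u ∧ fl v' = fl v := by
  rw [fl_append] at h
  obtain ⟨u', v', h1, h2, h3⟩ := List.map_eq_append_iff.mp h
  exact ⟨u', v', h1, h2, h3⟩

theorem FE.refl (n : ℕ) (w : List Gen) : FE n w w := Relation.EqvGen.refl w

theorem FE.symm {n : ℕ} {w w' : List Gen} (h : FE n w w') : FE n w' w :=
  Relation.EqvGen.symm _ _ h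

theorem FE.trans {n : ℕ} {w w' w'' : List Gen} (h : FE n w w') (h' : FE n w' w'') :
    FE n w w'' := Relation.EqvGen.trans _ _ _ h h'

instance (n : ℕ) : Trans (FE n) (FE n) (FE n) := ⟨FE.trans⟩

theorem FE.of_eq {n : ℕ} {w w' : List Gen} (h : w = w') : FE n w w' := h ▸ FE.refl n w

theorem FE.of_fmove {n : ℕ} {l r : List Gen} (h : FMove l r) (hl : Ok n l) (hr : Ok n r) :
    FE n l r :=
  Relation.EqvGen.rel _ _ ⟨[], l, r, [], h, hl, hr, by simp, by simp⟩

theorem FE.of_move {n : ℕ} {l r : List Gen} (h : Move l r) (hl : Ok n l) (hr : Ok n r) :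
    FE n l r := FE.of_fmove (FMove.mv h) hl hr

/-- Flat equivalence in a context. -/
theorem FE.ctx {n : ℕ} (u v : List Gen) {l r : List Gen} (h : FE (cnt n u) l r) :
    FE n (u ++ l ++ v) (u ++ r ++ v) := by
  induction h with
  | rel x y h =>
    obtain ⟨a, l, r, b, hm, h1, h2, rfl, rfl⟩ := h
    refine Relation.EqvGen.rel _ _ ⟨u ++ a, l, r, b ++ v, hm, ?_, ?_, by simp, by simp⟩
    · rwa [cnt_append]
    · rwa [cnt_append]
  | refl x => exact FE.refl _ _
  | symm x y _ ih => exact ih.symm
  | trans x y z _ _ ih1 ih2 => exact ih1.trans ih2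

theorem FE.left {n : ℕ} (u : List Gen) {l r : List Gen} (h : FE (cnt n u) l r) :
    FE n (u ++ l) (u ++ r) := by simpa using FE.ctx u [] h

theorem FE.right {n : ℕ} (v : List Gen) {l r : List Gen} (h : FE n l r) :
    FE n (l ++ v) (r ++ v) := by simpa using FE.ctx (n := n) [] v h

theorem FE.cons {n : ℕ} (g : Gen) {l r : List Gen} (h : FE (n - win g.2 + wout g.2) l r) :
    FE n (g :: l) (g :: r) := FE.left (n := n) [g] h

theorem FMove.cnt_eq {l r : List Gen} (h : FMove l r) {n : ℕ} (hl : Ok n l) (hr : Ok n r) :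
    cnt n l = cnt n r := by
  cases h with
  | sw p a b => simp [win, wout]
  | mv h => cases h <;> simp [win, wout] at hl hr ⊢ <;> omega

theorem FMove.countP_eq {l r : List Gen} (h : FMove l r) (e : Bool) :
    l.countP (IsEnd e) = r.countP (IsEnd e) := by
  cases h with
  | sw p a b => simp [IsEnd]
  | mv h =>
    cases h with
    | far p q k l h =>
      have e1 : IsEnd e (q - win k + wout k, l) = IsEnd e (q, l) := rfl
      simp only [List.countP_cons, List.countP_nil, e1]; omega
    | endl p e' => simp [IsEnd, List.countP_cons]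
    | endr p e' => simp [IsEnd, List.countP_cons]
    | _ => simp [IsEnd]

theorem FE.ok_iff {n : ℕ} {w w' : List Gen} (h : FE n w w') : Ok n w ↔ Ok n w' := by
  induction h with
  | rel x y h =>
    obtain ⟨a, l, r, b, hm, h1, h2, rfl, rfl⟩ := h
    simp only [ok_append, cnt_append, h1, h2, hm.cnt_eq h1 h2]
  | refl x => rfl
  | symm x y _ ih => exact ih.symm
  | trans x y z _ _ ih1 ih2 => exact ih1.trans ih2

theorem FE.cnt_eq {n : ℕ} {w w' : List Gen} (h : FE n w w') : cnt n w = cnt n w' := by
  induction h with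
  | rel x y h =>
    obtain ⟨a, l, r, b, hm, h1, h2, rfl, rfl⟩ := h
    simp only [cnt_append, hm.cnt_eq h1 h2]
  | refl x => rfl
  | symm x y _ ih => exact ih.symm
  | trans x y z _ _ ih1 ih2 => exact ih1.trans ih2

theorem FE.countP_eq {n : ℕ} {w w' : List Gen} (h : FE n w w') (e : Bool) :
    w.countP (IsEnd e) = w'.countP (IsEnd e) := by
  induction h with
  | rel x y h =>
    obtain ⟨a, l, r, b, hm, h1, h2, rfl, rfl⟩ := h
    simp only [List.countP_append, hm.countP_eq e]
  | refl x => rfl
  | symm x y _ ih => exact ih.symm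
  | trans x y z _ _ ih1 ih2 => exact ih1.trans ih2

theorem FE.of_fl {n : ℕ} {w w' : List Gen} (hw : Ok n w) (h : fl w = fl w') : FE n w w' := by
  induction w generalizing n w' with
  | nil =>
    cases w' with
    | nil => exact FE.refl _ _
    | cons g w' => simp at h
  | cons g w ih =>
    cases w' with
    | nil => simp at h
    | cons g' w' =>
      obtain ⟨p, k⟩ := g
      obtain ⟨p', k'⟩ := g'
      simp only [fl_cons, List.cons.injEq, Prod.mk.injEq] at h
      obtain ⟨⟨rfl, hk⟩, h⟩ := h
      refine (FE.cons _ (ih hw.2 h)).trans ?_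
      rcases flK_eq_iff.mp hk with rfl | ⟨a, b, rfl, rfl⟩
      · exact FE.refl _ _
      · exact FE.right w' (l := [(p, cr a)]) (r := [(p, cr b)])
          (FE.of_fmove (FMove.sw p a b) ⟨hw.1, trivial⟩ ⟨hw.1, trivial⟩)

theorem fe_far {n p q : ℕ} {k l : Kind} (h : p + win k ≤ q) (h' : q + win l ≤ n) :
    FE n [(q, l), (p, k)] [(p, k), (q - win k + wout k, l)] :=
  FE.of_move (Move.far p q k l h) (by simp; omega) (by simp; omega)

/-- `fe_far` with the new position given by an equation. -/
theorem fe_far' {n p q q' : ℕ} {k l : Kind} (h : p + win k ≤ q) (h' : q + win l ≤ n)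
    (e : q' + win k = q + wout k) : FE n [(q, l), (p, k)] [(p, k), (q', l)] := by
  have : q' = q - win k + wout k := by omega
  rw [this]; exact fe_far h h'

theorem fe_zig {n p : ℕ} (h : p + 1 ≤ n) : FE n [(p, cup), (p + 1, cap)] [] :=
  FE.of_move (Move.zig p) (by simp [win, wout]; omega) trivial

theorem fe_zag {n p : ℕ} (h : p + 1 ≤ n) : FE n [(p + 1, cup), (p, cap)] [] :=
  FE.of_move (Move.zag p) (by simp [win, wout]; omega) trivial

theorem fe_pcup {n p : ℕ} (h : p + 1 ≤ n) (a b : Bool) :
    FE n [(p + 1, cup), (p, cr a)] [(p, cup), (p + 1, cr b)] :=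
  (FE.of_move (Move.pcup p a) (by simp [win, wout]; omega) (by simp [win, wout]; omega)).trans
    (FE.of_fl (by simp [win, wout]; omega) rfl)

theorem fe_pcap {n p : ℕ} (h : p + 3 ≤ n) (a b : Bool) :
    FE n [(p, cr a), (p + 1, cap)] [(p + 1, cr b), (p, cap)] :=
  (FE.of_move (Move.pcap p a) (by simp [win, wout]; omega) (by simp [win, wout]; omega)).trans
    (FE.of_fl (by simp [win, wout]; omega) rfl)

theorem fe_endl {n p : ℕ} (h : p + 1 ≤ n) (e : Bool) :
    FE n [(p, up e), (p, cap)] [(p, dn e)] :=
  FE.of_move (Move.endl p e) (by simp [win, wout]; omega) (by simp [win]; omega)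

theorem fe_endr {n p : ℕ} (h : p + 1 ≤ n) (e : Bool) :
    FE n [(p + 1, up e), (p, cap)] [(p, dn e)] :=
  FE.of_move (Move.endr p e) (by simp [win, wout]; omega) (by simp [win]; omega)

theorem fe_r1cup {n p : ℕ} (h : p ≤ n) (a : Bool) : FE n [(p, cup), (p, cr a)] [(p, cup)] :=
  FE.of_move (Move.r1cup p a) (by simp [win, wout]; omega) (by simp [win]; omega)

theorem fe_r1cap {n p : ℕ} (h : p + 2 ≤ n) (a : Bool) : FE n [(p, cr a), (p, cap)] [(p, cap)] :=
  FE.of_move (Move.r1cap p a) (by simp [win, wout]; omega) (by simp [win]; omega)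

theorem fe_r2 {n p : ℕ} (h : p + 2 ≤ n) (a b : Bool) : FE n [(p, cr a), (p, cr b)] [] :=
  (FE.of_fl (w := [(p, cr a), (p, cr b)]) (w' := [(p, cr a), (p, cr !a)])
    (by simp [win, wout]; omega) rfl).trans
    (FE.of_move (Move.r2 p a) (by simp [win, wout]; omega) trivial)

theorem fe_r3 {n p : ℕ} (h : p + 3 ≤ n) (a b c a' b' c' : Bool) :
    FE n [(p, cr a), (p + 1, cr b), (p, cr c)] [(p + 1, cr a'), (p, cr b'), (p + 1, cr c')] :=
  (FE.of_fl (w := [(p, cr a), (p + 1, cr b), (p, cr c)])
    (w' := [(p, cr true), (p + 1, cr true), (p, cr true)])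
    (by simp [win, wout]; omega) rfl).trans
    ((FE.of_move (Move.r3 p true true true fun _ => rfl) (by simp [win, wout]; omega)
      (by simp [win, wout]; omega)).trans
        (FE.of_fl (w := [(p + 1, cr true), (p, cr true), (p + 1, cr true)])
          (by simp [win, wout]; omega) rfl))

theorem fe_upl {n p : ℕ} (h : p ≤ n) (e : Bool) : FE n [(p, cup), (p, dn e)] [(p, up e)] :=
  calc FE n [(p, cup), (p, dn e)] [(p, cup), (p, up e), (p, cap)] :=
        FE.cons _ (fe_endl (by simp [win, wout]; omega) e).symm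
    FE n _ [(p, up e), (p + 1, cup), (p, cap)] :=
        FE.right [(p, cap)] (l := [(p, cup), (p, up e)]) (r := [(p, up e), (p + 1, cup)])
          (fe_far' (by simp [win]) (by simpa [win] using h) (by simp [win, wout]))
    FE n _ [(p, up e)] := FE.cons _ (fe_zag (by simp [win, wout]; omega))

theorem fe_upr {n p : ℕ} (h : p ≤ n) (e : Bool) : FE n [(p, cup), (p + 1, dn e)] [(p, up e)] :=
  calc FE n [(p, cup), (p + 1, dn e)] [(p, cup), (p + 1 + 1, up e), (p + 1, cap)] :=
        FE.cons _ (fe_endr (by simp [win, wout]; omega) e).symm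
    FE n _ [(p, up e), (p, cup), (p + 1, cap)] :=
        FE.right [(p + 1, cap)] (l := [(p, cup), (p + 1 + 1, up e)]) (r := [(p, up e), (p, cup)])
          (fe_far' (by simp [win]) (by simpa [win] using h) (by simp [win, wout])).symm
    FE n _ [(p, up e)] := FE.cons _ (fe_zig (by simp [win, wout]; omega))

@[simp] theorem win_mirK (k : Kind) : win (mirK k) = wout k := by cases k <;> rfl
@[simp] theorem wout_mirK (k : Kind) : wout (mirK k) = win k := by cases k <;> rfl
@[simp] theorem mirK_mirK (k : Kind) : mirK (mirK k) = k := by cases k <;> rfl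
@[simp] theorem mir_nil : mir [] = [] := rfl
theorem mir_cons (g : Gen) (w : List Gen) : mir (g :: w) = mir w ++ [(g.1, mirK g.2)] := by
  simp [mir]
theorem mir_append (u v : List Gen) : mir (u ++ v) = mir v ++ mir u := by simp [mir]
@[simp] theorem mir_mir (w : List Gen) : mir (mir w) = w := by
  induction w with
  | nil => rfl
  | cons g w ih => rw [mir_cons, mir_append, ih]; simp [mir]

theorem ok_mir {n : ℕ} {w : List Gen} (h : Ok n w) :
    Ok (cnt n w) (mir w) ∧ cnt (cnt n w) (mir w) = n := by
  induction w generalizing n with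
  | nil => simp
  | cons g w ih =>
    obtain ⟨h1, h2⟩ := ih h.2
    have := h.1
    rw [mir_cons, ok_append, cnt_append, cnt_cons, h2]
    refine ⟨⟨h1, ?_⟩, ?_⟩ <;> simp <;> omega

theorem cross_mir (w : List Gen) : cross (mir w) = cross w := by
  induction w with
  | nil => rfl
  | cons g w ih =>
    rw [mir_cons, cross_append, ih, cross_cons, cross_cons]
    obtain ⟨p, k⟩ := g
    cases k <;> simp [mirK, flK, cross]

theorem countP_mir (e : Bool) (w : List Gen) :
    (mir w).countP (IsEnd e) = w.countP (IsEnd e) := by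
  induction w with
  | nil => rfl
  | cons g w ih =>
    rw [mir_cons, List.countP_append, ih, List.countP_cons, List.countP_cons]
    obtain ⟨p, k⟩ := g
    cases k <;> simp [mirK, IsEnd]

theorem FMove.mir {l r : List Gen} (h : FMove l r) {n : ℕ} (hl : Ok n l) (hr : Ok n r) :
    FE (cnt n l) (H77.mir l) (H77.mir r) := by
  cases h with
  | sw p a b => exact FE.of_fl (ok_mir hl).1 rfl
  | mv h =>
    cases h with
    | far p q k l h =>
      simp only [ok_cons, ok_nil, and_true] at hl hr
      exact (fe_far' (k := mirK k) (l := mirK l) (p := p) (q := q - win k + wout k) (q' := q)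
        (by simp; omega) (by simp; omega) (by simp; omega)).symm
    | zig p => exact fe_zag (by simp [win, wout] at hl ⊢; omega)
    | zag p => exact fe_zig (by simp [win, wout] at hl ⊢; omega)
    | pcup p a => exact fe_pcap (by simp [win, wout] at hl ⊢; omega) _ _
    | pcap p a => exact fe_pcup (by simp [win, wout] at hl ⊢; omega) _ _
    | endl p e => exact fe_upl (by simp [win, wout] at hl ⊢; omega) _
    | endr p e => exact fe_upr (by simp [win, wout] at hl ⊢; omega) _
    | r1cup p a => exact fe_r1cap (by simp [win, wout] at hl ⊢; omega) _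
    | r1cap p a => exact fe_r1cup (by simp [win, wout] at hl ⊢; omega) _
    | r2 p a => exact fe_r2 (by simp [win, wout] at hl ⊢; omega) _ _
    | r3 p a b c h => exact fe_r3 (by simp [win, wout] at hl ⊢; omega) _ _ _ _ _ _

/-- Flat equivalence is compatible with the reflection. -/
theorem FE.mir {n : ℕ} {w w' : List Gen} (h : FE n w w') (hw : Ok n w) :
    FE (cnt n w) (H77.mir w) (H77.mir w') := by
  induction h with
  | rel x y h =>
    obtain ⟨a, l, r, b, hm, h1, h2, rfl, rfl⟩ := h
    simp only [mir_append, ← List.append_assoc]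
    apply FE.ctx
    rw [ok_append] at hw
    rw [cnt_append, (ok_mir hw.2).2, cnt_append]
    exact hm.mir h1 h2
  | refl x => exact FE.refl _ _
  | symm x y h ih =>
    have := ih ((FE.ok_iff h).mpr hw)
    rw [FE.cnt_eq h] at this
    exact this.symm
  | trans x y z h1 h2 ih1 ih2 =>
    have := ih2 ((FE.ok_iff h1).mp hw)
    rw [← FE.cnt_eq h1] at this
    exact (ih1 hw).trans this

theorem noEnd_iff (w : List Gen) :
    NoEnd w ↔ w.countP (IsEnd false) = 0 ∧ w.countP (IsEnd true) = 0 := by
  simp only [NoEnd, List.countP_eq_zero, Bool.not_eq_true]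
  constructor
  · intro h; exact ⟨fun g hg => h g hg _, fun g hg => h g hg _⟩
  · intro h g hg e
    cases e
    · exact h.1 g hg
    · exact h.2 g hg

theorem NoEnd.mir {w : List Gen} (h : NoEnd w) : NoEnd (H77.mir w) := by
  rw [noEnd_iff] at h ⊢
  simpa only [countP_mir] using h

end Pool.Agent.MP_d5eec5_gt.H77
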