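import Pool.Agent.MP_d5eec5_gt.H77.KBasic

/-! Basic facts on the tangles `bot l`, `top l` and on line diagrams. -/

set_option autoImplicit false

namespace Pool.Agent.MP_d5eec5_gt.H77

open Pool.Agent.MP_d5eec5_gt.H48 Kind

@[simp] theorem bot_nil : bot [] = [] := by rw [bot]

theorem bot_cons (a : ℕ) (l : List ℕ) :
    bot (a :: l) = bot (l.erase a) ++ (0, cup) :: chain (l.idxOf a) := by rw [bot]

@[simp] theorem chain_zero : chain 0 = [] := rfl

theorem chain_succ (j : ℕ) : chain (j + 1) = chain j ++ [(j + 1, cr true)] := by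
  simp [chain, List.range_succ]

theorem chain_ok {n j : ℕ} (h : j + 2 ≤ n) : Ok n (chain j) ∧ cnt n (chain j) = n := by
  induction j with
  | zero => simp
  | succ j ih =>
    obtain ⟨h1, h2⟩ := ih (by omega)
    rw [chain_succ, ok_append, cnt_append, h2]
    refine ⟨⟨h1, ?_⟩, ?_⟩ <;> simp [win, wout] <;> omega

theorem chain_noEnd (j : ℕ) : NoEnd (chain j) := by
  intro g hg e
  simp only [chain, List.mem_map] at hg
  obtain ⟨i, _, rfl⟩ := hg
  simp [IsEnd]

theorem NoEnd.append {u v : List Gen} (hu : NoEnd u) (hv : NoEnd v) : NoEnd (u ++ v) := by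
  intro g hg
  rcases List.mem_append.mp hg with h | h
  · exact hu g h
  · exact hv g h

theorem Dbl.perm {l l' : List ℕ} (h : Dbl l) (hp : l.Perm l') : Dbl l' := by
  intro a ha
  rw [← hp.count_eq]
  exact h a (hp.mem_iff.mpr ha)

theorem dbl_nil : Dbl [] := by intro a ha; simp at ha

theorem Dbl.count_head {a : ℕ} {l : List ℕ} (h : Dbl (a :: l)) : l.count a = 1 := by
  have := h a (by simp)
  simpa using this

theorem Dbl.mem_tail {a : ℕ} {l : List ℕ} (h : Dbl (a :: l)) : a ∈ l :=
  List.count_pos_iff.mp (by rw [h.count_head]; exact Nat.one_pos)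

theorem Dbl.not_mem_erase {a : ℕ} {l : List ℕ} (h : Dbl (a :: l)) : a ∉ l.erase a := by
  rw [← List.count_eq_zero, List.count_erase_self, h.count_head]

theorem Dbl.erase {a : ℕ} {l : List ℕ} (h : Dbl (a :: l)) : Dbl (l.erase a) := by
  intro b hb
  have hne : b ≠ a := fun e => h.not_mem_erase (e ▸ hb)
  have := h b (List.mem_cons_of_mem _ (List.mem_of_mem_erase hb))
  rw [List.count_cons_of_ne (Ne.symm hne)] at this
  rw [List.count_erase_of_ne hne, this]

theorem dbl_cons_cons {a : ℕ} {l : List ℕ} : Dbl (a :: a :: l) ↔ Dbl l ∧ a ∉ l := by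
  constructor
  · intro h
    have h1 := h.erase
    have h2 := h.not_mem_erase
    simp only [List.erase_cons_head] at h1 h2
    exact ⟨h1, h2⟩
  · rintro ⟨h, ha⟩ b hb
    by_cases e : b = a
    · subst e; simp [List.count_eq_zero.mpr ha]
    · have : b ∈ l := by simpa [e] using hb
      rw [List.count_cons_of_ne (Ne.symm e), List.count_cons_of_ne (Ne.symm e)]
      exact h b this

theorem perm_mid2 {α : Type} (l₁ l₂ : List α) (x y : α) :
    (l₁ ++ x :: y :: l₂).Perm (x :: y :: (l₁ ++ l₂)) :=
  List.perm_middle.trans (List.Perm.cons _ List.perm_middle)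

/-- Adding or removing an adjacent pair. -/
theorem dbl_cup {a : ℕ} {l₁ l₂ : List ℕ} :
    Dbl (l₁ ++ a :: a :: l₂) ↔ Dbl (l₁ ++ l₂) ∧ a ∉ l₁ ++ l₂ := by
  rw [← dbl_cons_cons]
  exact ⟨fun h => h.perm (perm_mid2 _ _ _ _), fun h => h.perm (perm_mid2 _ _ _ _).symm⟩

theorem Dbl.swap {l₁ l₂ : List ℕ} {x y : ℕ} (h : Dbl (l₁ ++ x :: y :: l₂)) :
    Dbl (l₁ ++ y :: x :: l₂) :=
  h.perm (List.Perm.append_left _ (List.Perm.swap _ _ _))

theorem count_map_of_inj {f : ℕ → ℕ} {l : List ℕ} {a : ℕ} (h : ∀ b ∈ l, f b = f a → b = a) :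
    (l.map f).count (f a) = l.count a := by
  induction l with
  | nil => rfl
  | cons b l ih =>
    rw [List.map_cons, List.count_cons, List.count_cons,
      ih fun c hc => h c (List.mem_cons_of_mem _ hc)]
    by_cases e : b = a
    · simp [e]
    · have : f b ≠ f a := fun e' => e (h b (by simp) e')
      simp [e, this]

theorem Dbl.map {l : List ℕ} (h : Dbl l) {f : ℕ → ℕ}
    (hf : ∀ a ∈ l, ∀ b ∈ l, f a = f b → a = b) : Dbl (l.map f) := by
  intro c hc
  obtain ⟨a, ha, rfl⟩ := List.mem_map.mp hc
  rw [count_map_of_inj fun b hb => hf b hb a ha]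
  exact h a ha

theorem count_map_ren (x y c : ℕ) (hxy : x ≠ y) (l : List ℕ) :
    (l.map (ren y x)).count c =
      if c = x then l.count x + l.count y else if c = y then 0 else l.count c := by
  induction l with
  | nil => simp
  | cons b l ih =>
    simp only [List.map_cons, List.count_cons, ih, ren, beq_iff_eq]
    split_ifs <;> omega

/-- Joining two chords by a cap. -/
theorem Dbl.cap {l₁ l₂ : List ℕ} {x y : ℕ} (h : Dbl (l₁ ++ x :: y :: l₂)) (hxy : x ≠ y) :
    Dbl ((l₁ ++ l₂).map (ren y x)) := by
  have h' := h.perm (perm_mid2 _ _ _ _)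
  generalize l₁ ++ l₂ = l at h'
  intro c hc
  have hx := h' x (by simp)
  have hy := h' y (by simp)
  simp only [List.count_cons, beq_iff_eq, if_true, if_neg hxy, if_neg hxy.symm] at hx hy
  have hpos := List.count_pos_iff.mpr hc
  rw [count_map_ren x y c hxy] at hpos ⊢
  split_ifs at hpos ⊢ with h1 h2
  · omega
  · omega
  · have := h' c (by simp [List.count_pos_iff.mp hpos])
    simpa [List.count_cons, Ne.symm h1, Ne.symm h2] using this

theorem bot_ok_cnt {l : List ℕ} (h : Dbl l) : Ok 0 (bot l) ∧ cnt 0 (bot l) = l.length := by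
  induction hn : l.length using Nat.strong_induction_on generalizing l with
  | _ n ih =>
    cases l with
    | nil => subst hn; simp
    | cons a l =>
      have hm := h.mem_tail
      have hl := List.length_erase_of_mem hm
      have hp := List.length_pos_of_mem hm
      have hi := List.idxOf_lt_length_of_mem hm
      simp only [List.length_cons] at hn
      obtain ⟨h1, h2⟩ := ih _ (by omega) h.erase rfl
      obtain ⟨h3, h4⟩ := chain_ok (n := (l.erase a).length + 2) (j := l.idxOf a) (by omega)
      rw [bot_cons, ok_append, cnt_append, h2]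
      refine ⟨⟨h1, by simp [win], h3⟩, ?_⟩
      exact h4.trans (by omega)

theorem bot_ok {l : List ℕ} (h : Dbl l) : Ok 0 (bot l) := (bot_ok_cnt h).1

theorem bot_cnt {l : List ℕ} (h : Dbl l) : cnt 0 (bot l) = l.length := (bot_ok_cnt h).2

theorem bot_noEnd (l : List ℕ) : NoEnd (bot l) := by
  induction hn : l.length using Nat.strong_induction_on generalizing l with
  | _ n ih =>
    cases l with
    | nil => intro g hg; simp at hg
    | cons a l =>
      have := List.length_erase_le (a := a) (l := l)
      simp only [List.length_cons] at hn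
      rw [bot_cons]
      refine (ih _ (by omega) _ rfl).append ?_
      intro g hg e
      rcases List.mem_cons.mp hg with rfl | hg
      · simp [IsEnd]
      · exact chain_noEnd _ g hg e

theorem erase_map_of_inj {f : ℕ → ℕ} {l : List ℕ} {a : ℕ} (h : ∀ b ∈ l, f b = f a → b = a) :
    (l.map f).erase (f a) = (l.erase a).map f ∧ (l.map f).idxOf (f a) = l.idxOf a := by
  induction l with
  | nil => simp
  | cons b l ih =>
    obtain ⟨h1, h2⟩ := ih fun c hc => h c (List.mem_cons_of_mem _ hc)
    by_cases e : b = a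
    · simp [e]
    · have : f b ≠ f a := fun e' => e (h b (by simp) e')
      simp [List.idxOf_cons_ne _ e, List.idxOf_cons_ne _ this, e, this, h1, h2]

/-- `bot l` depends only on the pattern of equal labels. -/
theorem bot_map {l : List ℕ} {f : ℕ → ℕ} (hf : ∀ a ∈ l, ∀ b ∈ l, f a = f b → a = b) :
    bot (l.map f) = bot l := by
  induction hn : l.length using Nat.strong_induction_on generalizing l with
  | _ n ih =>
    cases l with
    | nil => rfl
    | cons a l =>
      have := List.length_erase_le (a := a) (l := l)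
      simp only [List.length_cons] at hn
      obtain ⟨h1, h2⟩ := erase_map_of_inj (f := f) (l := l) (a := a)
        fun b hb => hf b (List.mem_cons_of_mem _ hb) a (by simp)
      rw [List.map_cons, bot_cons, bot_cons, h1, h2, ih _ (by omega) _ rfl]
      intro x hx y hy
      exact hf x (List.mem_cons_of_mem _ (List.mem_of_mem_erase hx)) y
        (List.mem_cons_of_mem _ (List.mem_of_mem_erase hy))

/-- Two labellings of one list with the same pattern. -/
theorem bot_congr (z : List ℕ) (f g : ℕ → ℕ)
    (h : ∀ a ∈ z, ∀ b ∈ z, f a = f b ↔ g a = g b) : bot (z.map f) = bot (z.map g) := by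
  classical
  let φ : ℕ → ℕ := fun t => if ht : ∃ a ∈ z, f a = t then g ht.choose else 0
  have hφ : ∀ a ∈ z, φ (f a) = g a := by
    intro a ha
    have ht : ∃ b ∈ z, f b = f a := ⟨a, ha, rfl⟩
    simp only [φ, dif_pos ht]
    exact (h _ ht.choose_spec.1 a ha).mp ht.choose_spec.2
  have e : z.map g = (z.map f).map φ := by
    rw [List.map_map]
    exact List.map_congr_left fun a ha => (hφ a ha).symm
  rw [e, bot_map (l := z.map f)]
  intro s hs t ht hst
  obtain ⟨a, ha, rfl⟩ := List.mem_map.mp hs
  obtain ⟨b, hb, rfl⟩ := List.mem_map.mp ht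
  rw [hφ a ha, hφ b hb] at hst
  exact (h a ha b hb).mpr hst

theorem top_ok {l : List ℕ} (h : Dbl l) : Ok l.length (top l) := by
  have := (ok_mir (bot_ok h)).1
  rwa [bot_cnt h] at this

theorem top_cnt {l : List ℕ} (h : Dbl l) : cnt l.length (top l) = 0 := by
  have := (ok_mir (bot_ok h)).2
  rwa [bot_cnt h] at this

theorem top_noEnd (l : List ℕ) : NoEnd (top l) := (bot_noEnd l).mir

theorem top_map {l : List ℕ} {f : ℕ → ℕ} (hf : ∀ a ∈ l, ∀ b ∈ l, f a = f b → a = b) :
    top (l.map f) = top l := by unfold top; rw [bot_map hf]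

theorem top_congr (z : List ℕ) (f g : ℕ → ℕ)
    (h : ∀ a ∈ z, ∀ b ∈ z, f a = f b ↔ g a = g b) : top (z.map f) = top (z.map g) := by
  unfold top; rw [bot_congr z f g h]

/-- The mirror image of a normal form step. -/
theorem top_step {l l' : List ℕ} {g : Gen} (hl' : Dbl l') (h : FE 0 (bot l ++ [g]) (bot l')) :
    FE l'.length ((g.1, mirK g.2) :: top l) (top l') := by
  have := h.symm.mir (bot_ok hl')
  rw [bot_cnt hl', mir_append] at this
  exact this.symm

theorem dbl_range_bot (k : ℕ) : Dbl ((List.range' 1 (2 * k)).map fun x => (x + 1) / 2) := by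
  induction k with
  | zero => exact dbl_nil
  | succ k ih =>
    have e : List.range' 1 (2 * (k + 1)) = List.range' 1 (2 * k) ++ [2 * k + 1, 2 * k + 2] := by
      rw [show 2 * (k + 1) = 2 * k + 2 by ring, ← List.range'_append_1]
      simp [List.range', add_comm]
      omega
    rw [e, List.map_append]
    have e1 : (2 * k + 1 + 1) / 2 = k + 1 := by omega
    have e2 : (2 * k + 2 + 1) / 2 = k + 1 := by omega
    simp only [List.map_cons, List.map_nil, e1, e2]
    rw [dbl_cup]
    simp only [List.append_nil]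
    refine ⟨ih, ?_⟩
    simp only [List.mem_map, List.mem_range'_1]
    rintro ⟨x, hx, hx'⟩
    omega

theorem Lab.dbl_bot {L : Line} (h : Lab L) : Dbl (botIds L) := by
  obtain ⟨⟨k, hk⟩, hp⟩ := h
  have := dbl_range_bot k
  rw [show 2 * k = L.m by omega] at this
  exact this.perm (hp.map _).symm

theorem Lab.perm_top {L : Line} (h : Lab L) :
    (L.a ++ 0 :: L.b ++ (L.m + 1) :: L.c).Perm (List.range (L.m + 2)) := by
  have h1 : (L.a ++ 0 :: L.b ++ (L.m + 1) :: L.c).Perm ((L.m + 1) :: 0 :: L.all) := by
    refine List.perm_middle.trans (List.Perm.cons _ ?_)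
    exact List.Perm.append_right _ List.perm_middle
  refine h1.trans ?_
  have h2 : List.range (L.m + 2) = 0 :: List.range' 1 L.m ++ [L.m + 1] := by
    rw [List.range_succ, List.range_eq_range', List.range'_succ]
  rw [h2]
  refine List.Perm.trans ?_ List.perm_append_comm
  exact List.Perm.cons _ (List.Perm.cons _ h.2)

theorem Lab.dbl_top {L : Line} (h : Lab L) : Dbl (topIds L) := by
  obtain ⟨k, hk⟩ := h.1
  have h1 := dbl_range_bot (k + 1)
  have h2 : ((List.range' 1 (2 * (k + 1))).map fun x => (x + 1) / 2).map (· - 1) =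
      (List.range (L.m + 2)).map fun x => x / 2 := by
    rw [show 2 * (k + 1) = L.m + 2 by omega, List.range'_eq_map_range, List.map_map,
      List.map_map]
    apply List.map_congr_left
    intro x _
    simp only [Function.comp]
    omega
  have h3 := h1.map (f := (· - 1)) (by
    intro a ha b hb
    simp only [List.mem_map, List.mem_range'_1] at ha hb
    obtain ⟨x, hx, rfl⟩ := ha
    obtain ⟨y, hy, rfl⟩ := hb
    omega)
  rw [h2] at h3
  exact h3.perm (h.perm_top.map _).symm

theorem Line.m_eq (L : Line) : L.m = L.a.length + L.b.length + L.c.length := by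
  simp [Line.m, Line.all, add_assoc]

theorem botIds_length (L : Line) : (botIds L).length = L.m := List.length_map _

theorem topIds_length (L : Line) : (topIds L).length = L.m + 2 := by
  simp [topIds, L.m_eq]; omega

theorem wordOf_length (L : Line) : (wordOf L).length = L.m := by simp [wordOf]

theorem ends_ok {n a b : ℕ} (h : a + b ≤ n) : Ok n (ends a b) := by
  simp [ends, win, wout]; omega

theorem ends_cnt (n a b : ℕ) : cnt n (ends a b) = n + 2 := by simp [ends, win, wout]

theorem LD_ok {L : Line} (h : Lab L) : Ok 0 (LD L) := by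
  unfold LD
  rw [ok_append, ok_append, cnt_append, bot_cnt h.dbl_bot, ends_cnt, botIds_length,
    ← topIds_length]
  exact ⟨⟨bot_ok h.dbl_bot, ends_ok (by rw [L.m_eq]; omega)⟩, top_ok h.dbl_top⟩

theorem LD_countP (L : Line) (e : Bool) : (LD L).countP (IsEnd e) = 1 := by
  have h1 := (noEnd_iff _).mp (bot_noEnd (botIds L))
  have h2 := (noEnd_iff _).mp (top_noEnd (topIds L))
  unfold LD
  rw [List.countP_append, List.countP_append]
  cases e
  · rw [h1.1, h2.1]; simp [ends, IsEnd]
  · rw [h1.2, h2.2]; simp [ends, IsEnd]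

end Pool.Agent.MP_d5eec5_gt.H77
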