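import Pool.Agent.MP_d5eec5_gt.H77.KBot

/-! Basic facts on numberings of the monotone arcs. -/

set_option autoImplicit false

namespace Pool.Agent.MP_d5eec5_gt.H77

open Pool.Agent.MP_d5eec5_gt.H48 Kind

theorem Loc.length {d : Bool} {k : Kind} {x y : List ℕ} (h : Loc d k x y) :
    x.length = win k ∧ y.length = wout k := by
  cases k with
  | cup => obtain ⟨rfl, t, _, rfl | rfl⟩ := h <;> simp [win, wout]
  | cap => obtain ⟨rfl, t, _, rfl | rfl⟩ := h <;> simp [win, wout]
  | cr b => obtain ⟨s, t, rfl, rfl, _⟩ := h; simp [win, wout]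
  | up e => obtain ⟨rfl, t, rfl, _⟩ := h; simp [win, wout]
  | dn e => obtain ⟨rfl, t, rfl, _⟩ := h; simp [win, wout]

/-- Either nothing is consumed, or nothing is created, or the numbers are permuted. -/
theorem Loc.perm {d : Bool} {k : Kind} {x y : List ℕ} (h : Loc d k x y) :
    ∃ D, (y ++ D).Perm (x ++ if x = [] then y else []) := by
  cases k with
  | cup => obtain ⟨rfl, _⟩ := h; exact ⟨[], by simp⟩
  | cap => obtain ⟨rfl, _⟩ := h; exact ⟨x, by simp⟩
  | cr b => obtain ⟨s, t, rfl, rfl, _⟩ := h; exact ⟨[], by simp [List.Perm.swap]⟩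
  | up e => obtain ⟨rfl, _⟩ := h; exact ⟨[], by simp⟩
  | dn e => obtain ⟨rfl, _⟩ := h; exact ⟨x, by simp⟩

theorem Num.nil_iff {d : Bool} {l l' C : List ℕ} : Num d l [] l' C ↔ l' = l ∧ C = [] := by
  constructor
  · intro h; cases h; exact ⟨rfl, rfl⟩
  · rintro ⟨rfl, rfl⟩; exact Num.nil _

theorem Num.cons_iff {d : Bool} {l l' C : List ℕ} {p : ℕ} {k : Kind} {w : List Gen} :
    Num d l ((p, k) :: w) l' C ↔ ∃ l₁ l₂ x y C', l = l₁ ++ x ++ l₂ ∧ l₁.length = p ∧
      Loc d k x y ∧ Num d (l₁ ++ y ++ l₂) w l' C' ∧ C = (if x = [] then y else []) ++ C' := by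
  constructor
  · intro h
    cases h with
    | cons h1 h2 => exact ⟨_, _, _, _, _, rfl, rfl, h1, h2, rfl⟩
  · rintro ⟨l₁, l₂, x, y, C', rfl, rfl, h1, h2, rfl⟩
    exact Num.cons h1 h2

theorem Num.append {d : Bool} {l m l' C₁ C₂ : List ℕ} {u v : List Gen} (h₁ : Num d l u m C₁)
    (h₂ : Num d m v l' C₂) : Num d l (u ++ v) l' (C₁ ++ C₂) := by
  induction h₁ with
  | nil l => exact h₂
  | cons h1 _ ih =>
    rw [List.append_assoc _ _ C₂]
    exact Num.cons h1 (ih h₂)

theorem Num.append_iff {d : Bool} {l l' C : List ℕ} {u v : List Gen} :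
    Num d l (u ++ v) l' C ↔ ∃ m C₁ C₂, Num d l u m C₁ ∧ Num d m v l' C₂ ∧ C = C₁ ++ C₂ := by
  constructor
  · intro h
    induction u generalizing l C with
    | nil => exact ⟨l, [], C, Num.nil _, h, rfl⟩
    | cons g u ih =>
      obtain ⟨p, k⟩ := g
      obtain ⟨l₁, l₂, x, y, C', rfl, rfl, h1, h2, rfl⟩ := Num.cons_iff.mp h
      obtain ⟨m, C₁, C₂, h3, h4, rfl⟩ := ih h2
      exact ⟨m, _, C₂, Num.cons h1 h3, h4, by rw [List.append_assoc]⟩
  · rintro ⟨m, C₁, C₂, h1, h2, rfl⟩
    exact h1.append h2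

theorem Num.ok {d : Bool} {l l' C : List ℕ} {w : List Gen} (h : Num d l w l' C) :
    Ok l.length w ∧ cnt l.length w = l'.length := by
  induction h with
  | nil l => simp
  | @cons l₁ l₂ x y l' C k w h1 _ ih =>
    obtain ⟨e1, e2⟩ := h1.length
    have e : (l₁ ++ x ++ l₂).length - win k + wout k = (l₁ ++ y ++ l₂).length := by
      simp only [List.length_append]; omega
    rw [ok_cons, cnt_cons, e]
    refine ⟨⟨?_, ih.1⟩, ih.2⟩
    simp only [List.length_append]; omega

theorem Loc.perm_ctx {d : Bool} {k : Kind} {x y : List ℕ} (h : Loc d k x y) (l₁ l₂ C : List ℕ) :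
    ∃ D, (l₁ ++ y ++ l₂ ++ C ++ D).Perm (l₁ ++ x ++ l₂ ++ ((if x = [] then y else []) ++ C)) := by
  obtain ⟨D, hD⟩ := h.perm
  refine ⟨D, ?_⟩
  rw [List.perm_iff_count] at hD ⊢
  intro a
  have := hD a
  simp only [List.count_append] at this ⊢
  omega

/-- The numbers at the top together with the consumed numbers `D` are the numbers at the bottom
together with the created numbers. -/
theorem Num.perm {d : Bool} {l l' C : List ℕ} {w : List Gen} (h : Num d l w l' C) :
    ∃ D, (l' ++ D).Perm (l ++ C) := by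
  induction h with
  | nil l => exact ⟨[], List.Perm.refl _⟩
  | @cons l₁ l₂ x y l' C k w h1 _ ih =>
    obtain ⟨D, hD⟩ := ih
    obtain ⟨D', hD'⟩ := h1.perm_ctx l₁ l₂ C
    refine ⟨D ++ D', ?_⟩
    rw [← List.append_assoc]
    exact (hD.append_right D').trans hD'

theorem Num.nodup {d : Bool} {l l' C : List ℕ} {w : List Gen} (h : Num d l w l' C)
    (hn : (l ++ C).Nodup) : l'.Nodup := by
  obtain ⟨D, hD⟩ := h.perm
  exact (hD.nodup_iff.mpr hn).of_append_left

theorem Num.subset {d : Bool} {l l' C : List ℕ} {w : List Gen} (h : Num d l w l' C) :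
    l' ⊆ l ++ C := by
  obtain ⟨D, hD⟩ := h.perm
  exact fun a ha => hD.subset (List.mem_append_left _ ha)

/-- The top state together with further numbers `E` stays without repetition. -/
theorem Num.nodup_append {d : Bool} {l l' C : List ℕ} {w : List Gen} (h : Num d l w l' C)
    {E : List ℕ} (hn : (l ++ C ++ E).Nodup) : (l' ++ E).Nodup := by
  obtain ⟨D, hD⟩ := h.perm
  have := (hD.append_right E).nodup_iff.mpr hn
  refine this.sublist ?_
  rw [List.append_assoc]
  exact List.Sublist.append_left (List.sublist_append_right D E) l'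

theorem Loc.weaken {d : Bool} {k : Kind} {x y : List ℕ} (h : Loc d k x y) : Loc false k x y := by
  cases k with
  | cr b => obtain ⟨s, t, h1, h2, _⟩ := h; exact ⟨s, t, h1, h2, by simp⟩
  | _ => exact h

theorem Num.weaken {d : Bool} {l l' C : List ℕ} {w : List Gen} (h : Num d l w l' C) :
    Num false l w l' C := by
  induction h with
  | nil l => exact Num.nil _
  | cons h1 _ ih => exact Num.cons h1.weaken ih

theorem Num.of_fl {d : Bool} {l l' C : List ℕ} {w w' : List Gen} (h : Num d l w l' C)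
    (e : fl w = fl w') : Num false l w' l' C := by
  induction h generalizing w' with
  | nil l =>
    cases w' with
    | nil => exact Num.nil _
    | cons g w' => simp at e
  | @cons l₁ l₂ x y l' C k w h1 _ ih =>
    cases w' with
    | nil => simp at e
    | cons g w' =>
      obtain ⟨p, k'⟩ := g
      simp only [fl_cons, List.cons.injEq, Prod.mk.injEq] at e
      obtain ⟨⟨rfl, hk⟩, e⟩ := e
      refine Num.cons ?_ (ih e)
      rcases flK_eq_iff.mp hk with rfl | ⟨a, b, rfl, rfl⟩
      · exact h1.weaken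
      · obtain ⟨s, t, h1, h2, _⟩ := h1; exact ⟨s, t, h1, h2, by simp⟩

theorem Num.lift {d : Bool} {l l' C : List ℕ} {w : List Gen} (h : Num d l w l' C) :
    ∃ w', fl w' = fl w ∧ Num true l w' l' C := by
  induction h with
  | nil l => exact ⟨[], rfl, Num.nil _⟩
  | @cons l₁ l₂ x y l' C k w h1 _ ih =>
    obtain ⟨w', e, h'⟩ := ih
    have : ∃ k', flK k' = flK k ∧ Loc true k' x y := by
      cases k with
      | cr b =>
        obtain ⟨s, t, h1, h2, _⟩ := h1
        exact ⟨cr (decide (s < t)), rfl, s, t, h1, h2, by simp⟩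
      | cup => exact ⟨_, rfl, h1⟩
      | cap => exact ⟨_, rfl, h1⟩
      | up e => exact ⟨_, rfl, h1⟩
      | dn e => exact ⟨_, rfl, h1⟩
    obtain ⟨k', e', h1'⟩ := this
    exact ⟨(l₁.length, k') :: w', by simp [e, e'], Num.cons h1' h'⟩

/-- Renumbering.  The successor condition is needed only for pairs that can be joined by a
minimum (both created in `w`) or by a maximum (both consumed in `w`). -/
theorem Num.map {d : Bool} {l l' C : List ℕ} {w : List Gen} (h : Num d l w l' C)
    (hn : (l ++ C).Nodup) (f : ℕ → ℕ) (hpar : ∀ t ∈ l ++ C, f t % 2 = t % 2)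
    (hmono : ∀ s ∈ l ++ C, ∀ t ∈ l ++ C, s < t → f s < f t)
    (hcup : ∀ t, Odd t → t ∈ C → t + 1 ∈ C → f (t + 1) = f t + 1)
    (hcap : ∀ t, Even t → t ∈ l ++ C → t + 1 ∈ l ++ C → t ∉ l' → t + 1 ∉ l' →
      f (t + 1) = f t + 1) :
    Num d (l.map f) w (l'.map f) (C.map f) := by
  induction h with
  | nil l => exact Num.nil _
  | @cons l₁ l₂ x y l' C k w h1 h2 ih =>
    obtain ⟨D, hD⟩ := h1.perm_ctx l₁ l₂ C
    have hsub : ∀ t ∈ l₁ ++ y ++ l₂ ++ C,
        t ∈ l₁ ++ x ++ l₂ ++ ((if x = [] then y else []) ++ C) :=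
      fun t ht => hD.subset (List.mem_append_left _ ht)
    have ih' := ih (hD.nodup_iff.mpr hn).of_append_left (fun t ht => hpar t (hsub t ht))
      (fun s hs t ht => hmono s (hsub s hs) t (hsub t ht))
      (fun t ho h1 h2 => hcup t ho (List.mem_append_right _ h1) (List.mem_append_right _ h2))
      (fun t he h1 h2 => hcap t he (hsub t h1) (hsub _ h2))
    have hL : Loc d k (x.map f) (y.map f) := by
      cases k with
      | cup =>
        obtain ⟨rfl, t, ho, hy⟩ := h1
        have m1 : t ∈ y := by rcases hy with rfl | rfl <;> simp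
        have m2 : t + 1 ∈ y := by rcases hy with rfl | rfl <;> simp
        have e := hcup t ho (by simp [m1]) (by simp [m2])
        have e' := hpar t (by simp [m1])
        refine ⟨rfl, f t, ?_, ?_⟩
        · rw [Nat.odd_iff] at ho ⊢; omega
        · rcases hy with rfl | rfl <;> simp [e]
      | cap =>
        obtain ⟨rfl, t, he, hx⟩ := h1
        have m1 : t ∈ x := by rcases hx with rfl | rfl <;> simp
        have m2 : t + 1 ∈ x := by rcases hx with rfl | rfl <;> simp
        have hnot : ∀ s ∈ x, s ∉ l' := by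
          intro s hs hs'
          have h3 := h2.subset hs'
          have h4 := List.nodup_iff_count_le_one.mp hn s
          have h5 := List.count_pos_iff.mpr hs
          have h6 := List.count_pos_iff.mpr h3
          simp only [List.count_append, List.count_nil] at h4 h6
          omega
        have e := hcap t he (by simp [m1]) (by simp [m2]) (hnot t m1) (hnot _ m2)
        have e' := hpar t (by simp [m1])
        refine ⟨rfl, f t, ?_, ?_⟩
        · rw [Nat.even_iff] at he ⊢; omega
        · rcases hx with rfl | rfl <;> simp [e]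
      | cr b =>
        obtain ⟨s, t, rfl, rfl, hb⟩ := h1
        refine ⟨f s, f t, rfl, rfl, fun hd => (hb hd).trans ?_⟩
        have q1 := hmono s (by simp) t (by simp)
        have q2 := hmono t (by simp) s (by simp)
        constructor
        · exact q1
        · intro hf
          rcases lt_trichotomy s t with q | q | q
          · exact q
          · subst q; omega
          · have := q2 q; omega
      | up e =>
        obtain ⟨rfl, t, rfl, ht⟩ := h1
        have e' := hpar t (by simp)
        refine ⟨rfl, f t, rfl, ?_⟩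
        rw [← ht, Nat.odd_iff, Nat.odd_iff, e']
      | dn e =>
        obtain ⟨rfl, t, rfl, ht⟩ := h1
        have e' := hpar t (by simp)
        refine ⟨rfl, f t, rfl, ?_⟩
        rw [← ht, Nat.even_iff, Nat.even_iff, e']
    have := Num.cons (l₁ := l₁.map f) (l₂ := l₂.map f) hL (by simpa using ih')
    simp only [List.length_map, List.map_eq_nil_iff] at this
    simp only [List.map_append]
    rw [apply_ite (List.map f)]
    exact this

theorem Arc.weaken {d : Bool} {w : List Gen} (h : Arc d w) : Arc false w := by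
  obtain ⟨h1, h2, C, h3, h4⟩ := h
  exact ⟨h1, h2, C, h3.weaken, h4⟩

theorem Arc.ok {d : Bool} {w : List Gen} (h : Arc d w) : Ok 0 w := by
  obtain ⟨_, _, C, h3, _⟩ := h
  exact h3.ok.1

theorem Arc.of_fl {d : Bool} {w w' : List Gen} (h : Arc d w) (e : fl w = fl w') :
    Arc false w' := by
  obtain ⟨h1, h2, C, h3, h4⟩ := h
  refine ⟨?_, ?_, C, h3.of_fl e, h4⟩
  · rw [← countP_fl, ← e, countP_fl, h1]
  · rw [← countP_fl, ← e, countP_fl, h2]

/-- Every arc has a descending choice of crossings. -/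
theorem Arc.lift {d : Bool} {w : List Gen} (h : Arc d w) : ∃ w', fl w' = fl w ∧ Arc true w' := by
  obtain ⟨h1, h2, C, h3, h4⟩ := h
  obtain ⟨w', e, h'⟩ := h3.lift
  refine ⟨w', e, ?_, ?_, C, h', h4⟩
  · rw [← countP_fl, e, countP_fl, h1]
  · rw [← countP_fl, e, countP_fl, h2]

/-- An arc has no small loop. -/
theorem not_arc_loop (d : Bool) (u v : List Gen) (i : ℕ) :
    ¬ Arc d (u ++ [(i, cup), (i, cap)] ++ v) := by
  rintro ⟨_, _, C, h, _⟩
  obtain ⟨m, C₁, C₂, h, _, _⟩ := Num.append_iff.mp h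
  obtain ⟨m', C₃, C₄, _, h, _⟩ := Num.append_iff.mp h
  obtain ⟨l₁, l₂, x, y, C', _, e1, ⟨_, t, ht, hy⟩, h, _⟩ := Num.cons_iff.mp h
  obtain ⟨k₁, k₂, x', y', C'', e, e2, ⟨_, s, hs, hx⟩, _, _⟩ := Num.cons_iff.mp h
  rw [List.append_assoc, List.append_assoc] at e
  have e3 := (List.append_inj e (e1.trans e2.symm)).2
  rw [Nat.odd_iff] at ht
  rw [Nat.even_iff] at hs
  rcases hy with rfl | rfl <;> rcases hx with rfl | rfl <;> simp at e3 <;> omega

end Pool.Agent.MP_d5eec5_gt.H77
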