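import Pool.Agent.MP_d5eec5_gt.H77.Defs
import Pool.Agent.MP_d5eec5_gt.H77.GSpec

/-!
Flat equivalence of sliced diagrams, normal forms, line diagrams and colourings: definitions and
the statements of the steps.
-/

set_option autoImplicit false

namespace Pool.Agent.MP_d5eec5_gt.H77

open Pool.Agent.MP_d5eec5_gt.H48 Kind

/-- Number of strands at the top of a word with `n` strands at the bottom. -/
def cnt : ℕ → List Gen → ℕ
  | n, [] => n
  | n, g :: w => cnt (n - win g.2 + wout g.2) w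

/-- All positions are valid. -/
def Ok : ℕ → List Gen → Prop
  | _, [] => True
  | n, g :: w => g.1 + win g.2 ≤ n ∧ Ok (n - win g.2 + wout g.2) w

/-- Forget the crossing information. -/
def flK : Kind → Kind
  | cr _ => cr true
  | k => k

/-- Forget the crossing information. -/
def fl (w : List Gen) : List Gen := w.map fun g => (g.1, flK g.2)

/-- Moves of flat diagrams. -/
inductive FMove : List Gen → List Gen → Prop
  | mv {l r : List Gen} : Move l r → FMove l r
  | sw (p : ℕ) (a b : Bool) : FMove [(p, cr a)] [(p, cr b)]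

/-- One flat move inside a word with `n` strands at the bottom. -/
def FS (n : ℕ) (w w' : List Gen) : Prop :=
  ∃ u l r v, FMove l r ∧ Ok (cnt n u) l ∧ Ok (cnt n u) r ∧ w = u ++ l ++ v ∧ w' = u ++ r ++ v

/-- Flat equivalence. -/
def FE (n : ℕ) : List Gen → List Gen → Prop := Relation.EqvGen (FS n)

/-- Reflection in a horizontal line. -/
def mirK : Kind → Kind
  | cup => cap | cap => cup | cr b => cr b | up e => dn e | dn e => up e

/-- Reflection in a horizontal line. -/
def mir (w : List Gen) : List Gen := (w.map fun g => (g.1, mirK g.2)).reverse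

/-- No endpoint. -/
def NoEnd (w : List Gen) : Prop := ∀ g ∈ w, ∀ e, IsEnd e g = false

/-- The strand at position `1` moves `j` places to the right. -/
def chain (j : ℕ) : List Gen := (List.range j).map fun i => (i + 1, cr true)

/-- A tangle below the line that joins the positions of `l` with equal labels. -/
def bot : List ℕ → List Gen
  | [] => []
  | a :: l => bot (l.erase a) ++ (0, cup) :: chain (l.idxOf a)
termination_by l => l.length
decreasing_by
  have := List.length_erase_le (a := a) (l := l)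
  simp only [List.length_cons]
  omega

/-- A tangle above the line that joins the positions of `l` with equal labels. -/
def top (l : List ℕ) : List Gen := mir (bot l)

/-- Every label occurs twice. -/
def Dbl (l : List ℕ) : Prop := ∀ a ∈ l, l.count a = 2

/-- The number of pairs of positions `i < j` with labels `a` and `b`. -/
def pc (a b : ℕ) : List ℕ → ℕ
  | [] => 0
  | x :: l => pc a b l + if x = a then l.count b else 0

/-- The number of ordered pairs of interleaved labels. -/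
def inter (l : List ℕ) : ℕ :=
  ((l.toFinset ×ˢ l.toFinset).filter fun z => z.1 ≠ z.2 ∧ Odd (pc z.1 z.2 l)).card

/-- Rename `y` to `x`. -/
def ren (y x t : ℕ) : ℕ := if t = y then x else t

/-- The two endpoints side by side. -/
def ends (a b : ℕ) : List Gen := [(a, up false), (a + 1 + b, up true)]

/-- The numbers of the points where the arc meets the three segments of the line, from left to
right. -/
structure Line where
  a : List ℕ
  b : List ℕ
  c : List ℕ

/-- All the points. -/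
def Line.all (L : Line) : List ℕ := L.a ++ L.b ++ L.c

/-- The number of points. -/
def Line.m (L : Line) : ℕ := L.all.length

/-- The points are numbered `1, …, m` with `m` even. -/
def Lab (L : Line) : Prop := Even L.m ∧ L.all.Perm (List.range' 1 L.m)

/-- Labels of the chords below the line. -/
def botIds (L : Line) : List ℕ := L.all.map fun x => (x + 1) / 2

/-- Labels of the chords above the line. -/
def topIds (L : Line) : List ℕ := (L.a ++ 0 :: L.b ++ (L.m + 1) :: L.c).map fun x => x / 2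

/-- The line diagram. -/
def LD (L : Line) : List Gen := bot (botIds L) ++ ends L.a.length L.b.length ++ top (topIds L)

/-- The cutting word. -/
def wordOf (L : Line) : Wd :=
  (List.range L.m).map fun i => if i + 1 ∈ L.a then 0 else if i + 1 ∈ L.b then 1 else 2

/-- Twice the number of interleaved pairs of chords. -/
def XL (L : Line) : ℕ := inter (botIds L) + inter (topIds L)

/-- The even word attached to a starting side and a reduced word. -/
def pad (c : Bool) (w : Wd) : Wd :=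
  (if c then [0] else []) ++ w ++ (if (c.toNat + w.length) % 2 = 1 then [2] else [])

/-- Reductions of words. -/
inductive WR : Wd → Wd → Prop
  | bt (a : Wd) (x : Fin 3) (b : Wd) : WR (a ++ x :: x :: b) (a ++ b)
  | hd (x y : Fin 3) (v : Wd) : x ≠ 2 → y ≠ 2 → WR (x :: v) (y :: v)
  | lt (x y : Fin 3) (v : Wd) : x ≠ 0 → y ≠ 0 → WR (v ++ [x]) (v ++ [y])

/-- Colourings: colours are constant along the arc, except that the strands to the right of the
endpoint `e` are acted on by `γ e` at its level; the strand of the endpoint `e` has a colour in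
`P e`. -/
inductive Col {A : Type} (γ : Bool → Equiv.Perm A) (P : Bool → Set A) :
    List A → List Gen → List A → Prop
  | nil (l : List A) : Col γ P l [] l
  | cup {l₁ l₂ l' : List A} {w : List Gen} (x : A) : Col γ P (l₁ ++ x :: x :: l₂) w l' →
      Col γ P (l₁ ++ l₂) ((l₁.length, Kind.cup) :: w) l'
  | cap {l₁ l₂ l' : List A} {w : List Gen} (x : A) : Col γ P (l₁ ++ l₂) w l' →
      Col γ P (l₁ ++ x :: x :: l₂) ((l₁.length, Kind.cap) :: w) l'
  | cr {l₁ l₂ l' : List A} {w : List Gen} (x y : A) (b : Bool) :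
      Col γ P (l₁ ++ y :: x :: l₂) w l' →
        Col γ P (l₁ ++ x :: y :: l₂) ((l₁.length, Kind.cr b) :: w) l'
  | up {l₁ l₂ l' : List A} {w : List Gen} (x : A) (e : Bool) : x ∈ P e →
      Col γ P (l₁ ++ x :: l₂.map (γ e)) w l' →
        Col γ P (l₁ ++ l₂) ((l₁.length, Kind.up e) :: w) l'
  | dn {l₁ l₂ l' : List A} {w : List Gen} (x : A) (e : Bool) : x ∈ P e →
      Col γ P (l₁ ++ l₂.map (γ e)) w l' →
        Col γ P (l₁ ++ x :: l₂) ((l₁.length, Kind.dn e) :: w) l'

/-- `P e` is invariant under `γ e`. -/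
def Adm {A : Type} (γ : Bool → Equiv.Perm A) (P : Bool → Set A) : Prop :=
  ∀ e x, x ∈ P e ↔ γ e x ∈ P e

/-- The change of colour from below to above the segment `x`. -/
def seg {A : Type} (γ : Bool → Equiv.Perm A) (x : Fin 3) : Equiv.Perm A :=
  if x = 0 then 1 else if x = 1 then γ false else γ true * γ false

/-- The change of colour along an even word. -/
def act {A : Type} (γ : Bool → Equiv.Perm A) : Wd → A → A
  | x :: y :: v, t => act γ v (seg γ y ((seg γ x)⁻¹ t))
  | _, t => t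

/-- A flat move from `l` to `r` lifts to descending diagrams. -/
def TL1 (l r : List Gen) : Prop := ∀ u v l', Ok (cnt 0 u) r → fl l' = fl l →
  Arc true (u ++ l' ++ v) →
    ∃ r', fl r' = fl r ∧ Arc true (u ++ r' ++ v) ∧ (Move l' r' ∨ Move r' l')

/-- Both directions. -/
def TL2 (l r : List Gen) : Prop := TL1 l r ∧ TL1 r l

def StmtN1 : Prop := ∀ (l₁ l₂ : List ℕ) (x y : ℕ), Dbl (l₁ ++ x :: y :: l₂) →
  FE 0 (bot (l₁ ++ x :: y :: l₂) ++ [(l₁.length, cr true)]) (bot (l₁ ++ y :: x :: l₂))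

def StmtN2 : Prop := ∀ (l₁ l₂ : List ℕ) (a : ℕ), Dbl (l₁ ++ l₂) → a ∉ l₁ ++ l₂ →
  FE 0 (bot (l₁ ++ l₂) ++ [(l₁.length, cup)]) (bot (l₁ ++ a :: a :: l₂))

def StmtN3 : Prop := ∀ (l₁ l₂ : List ℕ) (x y : ℕ), Dbl (l₁ ++ x :: y :: l₂) → x ≠ y →
  FE 0 (bot (l₁ ++ x :: y :: l₂) ++ [(l₁.length, cap)]) (bot ((l₁ ++ l₂).map (ren y x)))

def StmtInt : Prop :=
  (∀ (l₁ l₂ : List ℕ) (x y : ℕ),
    inter (l₁ ++ y :: x :: l₂) ≤ inter (l₁ ++ x :: y :: l₂) + 2) ∧
  (∀ (l₁ l₂ : List ℕ) (x y : ℕ), x ≠ y → Dbl (l₁ ++ x :: y :: l₂) →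
    Odd (pc x y (l₁ ++ x :: y :: l₂)) →
      inter (l₁ ++ y :: x :: l₂) + 2 = inter (l₁ ++ x :: y :: l₂)) ∧
  (∀ (l₁ l₂ : List ℕ) (a : ℕ), a ∉ l₁ ++ l₂ → inter (l₁ ++ a :: a :: l₂) = inter (l₁ ++ l₂)) ∧
  (∀ (l₁ l₂ : List ℕ) (x y : ℕ), x ≠ y → Dbl (l₁ ++ x :: y :: l₂) →
    inter ((l₁ ++ l₂).map (ren y x)) ≤ inter (l₁ ++ x :: y :: l₂)) ∧
  (∀ (l : List ℕ) (f : ℕ → ℕ), (∀ a ∈ l, ∀ b ∈ l, f a = f b → a = b) →
    inter (l.map f) = inter l)

def StmtNF : Prop := ∀ B : List Gen, NoEnd B → Ok 0 B →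
  (∃ l, Dbl l ∧ FE 0 B (bot l) ∧ inter l ≤ 2 * cross B) ∨
    ∃ u v i, FE 0 B (u ++ [(i, cup), (i, cap)] ++ v)

def StmtMin : Prop := ∀ l, Dbl l → ∃ w, FE 0 (bot l) w ∧ 2 * cross w = inter l

def StmtSL : Prop := ∀ w : List Gen, Ok 0 w → w.countP (IsEnd false) = 1 →
  w.countP (IsEnd true) = 1 →
    ∃ u v a b, FE 0 w (u ++ ends a b ++ v) ∧ cross (u ++ ends a b ++ v) = cross w

def StmtTLa : Prop :=
  (∀ p q k l, p + win k ≤ q → TL2 [(q, l), (p, k)] [(p, k), (q - win k + wout k, l)]) ∧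
  (∀ p, TL2 [(p + 1, cup), (p, cr true)] [(p, cup), (p + 1, cr true)]) ∧
  (∀ p, TL2 [(p, cr true), (p + 1, cap)] [(p + 1, cr true), (p, cap)]) ∧
  (∀ p, TL2 [(p, cup), (p, cr true)] [(p, cup)]) ∧
  (∀ p, TL2 [(p, cr true), (p, cap)] [(p, cap)]) ∧
  (∀ p, TL2 [(p, cr true), (p, cr true)] []) ∧
  (∀ p, TL2 [(p, cr true), (p + 1, cr true), (p, cr true)]
    [(p + 1, cr true), (p, cr true), (p + 1, cr true)])

def StmtTLb : Prop :=
  (∀ p, TL2 [(p, cup), (p + 1, cap)] []) ∧ (∀ p, TL2 [(p + 1, cup), (p, cap)] []) ∧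
  (∀ p e, TL2 [(p, up e), (p, cap)] [(p, dn e)]) ∧
  (∀ p e, TL2 [(p + 1, up e), (p, cap)] [(p, dn e)])

def StmtTU : Prop := ∀ w w', fl w = fl w' → Arc true w → Arc true w' → w = w'

def StmtT1 : Prop := ∀ w w', FE 0 w w' → Arc false w → Arc false w'

def StmtT3 : Prop := ∀ D D' : Diagram, Arc true D.1 → Arc true D'.1 → FE 0 D.1 D'.1 →
  Quot.mk Step D = Quot.mk Step D'

def StmtLF : Prop := ∀ u v a b, Arc false (u ++ ends a b ++ v) →
  ∃ L, Lab L ∧ FE 0 (u ++ ends a b ++ v) (LD L) ∧ L.b.length = b ∧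
    XL L ≤ 2 * cross (u ++ ends a b ++ v)

def StmtLD : Prop := ∀ L, Lab L → Arc false (LD L)

def StmtWM1 : Prop := ∀ L L', Lab L → Lab L' → wordOf L = wordOf L' → FE 0 (LD L) (LD L')

def StmtWM2 : Prop := ∀ L L' a x b, Lab L → Lab L' → wordOf L = a ++ x :: x :: b →
  wordOf L' = a ++ b → FE 0 (LD L) (LD L')

def StmtWM3 : Prop :=
  (∀ L L' v, Lab L → Lab L' → wordOf L = 0 :: v → wordOf L' = 1 :: v → FE 0 (LD L) (LD L')) ∧
  (∀ L L' v, Lab L → Lab L' → wordOf L = v ++ [1] → wordOf L' = v ++ [2] → FE 0 (LD L) (LD L'))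

def StmtCol1 : Prop := ∀ (A : Type) (γ : Bool → Equiv.Perm A) (P : Bool → Set A) w w',
  Adm γ P → FE 0 w w' → w.countP (IsEnd false) = 1 → w.countP (IsEnd true) = 1 →
    Col γ P [] w [] → Col γ P [] w' []

def StmtCol2 : Prop := ∀ (A : Type) (γ : Bool → Equiv.Perm A) (P : Bool → Set A) L, Lab L →
  (Col γ P [] (LD L) [] ↔ ∃ x ∈ P false, act γ (wordOf L) x ∈ P true)

def StmtCol3 : Prop := ∀ c w, Valid w →
  ∃ (A : Type) (γ : Bool → Equiv.Perm A) (P : Bool → Set A), Adm γ P ∧
    (∃ x ∈ P false, act γ (pad c w) x ∈ P true) ∧ (∀ x ∈ P false, x ∉ P true) ∧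
    ∀ c' w', Valid w' → (∃ x ∈ P false, act γ (pad c' w') x ∈ P true) → c' = c ∧ w' = w

def StmtBR : Prop :=
  (∀ L, Lab L → 2 * I (wordOf L) ≤ XL L ∧ (wordOf L).count 1 = L.b.length) ∧
  (∀ v : Wd, Even v.length → ∃ L, Lab L ∧ wordOf L = v ∧ XL L = 2 * I v)

def StmtNorm : Prop := ∀ v : Wd, Even v.length → Relation.ReflTransGen WR v [] ∨
  ∃ c w, Valid w ∧ Relation.ReflTransGen WR v (pad c w) ∧ I w ≤ I v ∧ w.count 1 ≤ v.count 1

end Pool.Agent.MP_d5eec5_gt.H77
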