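import Pool.Agent.MP_d5eec5_gt.H77.Fin
import Pool.Agent.MP_d5eec5_gt.H48.Count
import Pool.Agent.MP_d5eec5_gt.H48.Kap
import Pool.Agent.MP_d5eec5_gt.H48.N1
import Pool.Agent.MP_d5eec5_gt.H48.Lf
import Pool.Agent.MP_d5eec5_gt.H22.G0
import Pool.Agent.MP_d5eec5_gt.H33.Split
import Pool.Agent.MP_d5eec5_gt.H18.Del
import Pool.Agent.MP_d5eec5_gt.H96.Ins
import Pool.Agent.MP_d5eec5_gt.H75.Sz
import Pool.Agent.MP_d5eec5_gt.H75.Wm1
import Pool.Agent.MP_d5eec5_gt.H26.R1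
import Pool.Agent.MP_d5eec5_gt.H79.R2
import Pool.Agent.MP_d5eec5_gt.H52.Kf
import Pool.Agent.MP_d5eec5_gt.H10.Ef
import Pool.Agent.MP_d5eec5_gt.H10.Ld
import Pool.Agent.MP_d5eec5_gt.H44.Sl
import Pool.Agent.MP_d5eec5_gt.H11.Int
import Pool.Agent.MP_d5eec5_gt.H97.Norm
import Pool.Agent.MP_d5eec5_gt.H16.Br
import Pool.Agent.MP_d5eec5_gt.H16.Tla
import Pool.Agent.MP_d5eec5_gt.H4.Tlb
import Pool.Agent.MP_d5eec5_gt.H92.Tu
import Pool.Agent.MP_d5eec5_gt.H14.Col1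
import Pool.Agent.MP_d5eec5_gt.H89.Col2
import Pool.Agent.MP_d5eec5_gt.H23.Col3
import Pool.Agent.MP_d5eec5_gt.H45.Wm2
import Pool.Agent.MP_d5eec5_gt.H6.N23

/-! Assembly of all steps. -/

set_option autoImplicit false

namespace Pool.Agent.MP_d5eec5_gt.H77

open Pool.Agent.MP_d5eec5_gt.H48

theorem geo_of_zn (hz : StmtZn) : Geo I :=
  geo_of g0 (kf_of g0 (del_of split2) kap_cl.1 (ins_of split2))
    (ef_of g0 (ins_of split2) kap_cl.2.2 hz kap_cl.2.1) sz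

theorem steps_of (hn : StmtN1 → StmtN2 → StmtN3 → StmtInt → StmtNF ∧ StmtMin) : Steps :=
  have h2 := n2_of n1
  have h3 := n3_of n1 h2
  have hf := hn n1 h2 h3 int
  have h1 := t1_of tla tlb
  { sl := sl
    lf := lf_of hf.1 int h1
    ld := ld
    mn := hf.2
    wm1 := wm1_of n1
    wm2 := wm2_of n1 h2 h3 (wm1_of n1)
    wm3 := wm3_of h2 (wm1_of n1)
    c1 := col1
    c2 := col2
    c3 := col3
    br := br_of g0
    nm := norm_of (r1_of g0 split2) (r2_of g0 split1)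
    t1 := h1
    t3 := t3_of tla tlb tu
    r2 := r2_of g0 split1 }

end Pool.Agent.MP_d5eec5_gt.H77
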