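import Pool.Agent.MP_d5eec5_gt.H77.KNum

/-! Flat equivalence and knotoids of descending diagrams. -/

set_option autoImplicit false

namespace Pool.Agent.MP_d5eec5_gt.H77

open Pool.Agent.MP_d5eec5_gt.H48 Kind

theorem TL1.congr {l r l₀ r₀ : List Gen} (h : TL1 l₀ r₀) (hl : fl l = fl l₀)
    (hr : fl r = fl r₀) : TL1 l r := by
  intro u v l' h1 h2 h3
  obtain ⟨r', e, h4⟩ := h u v l' ((ok_of_fl hr _).mp h1) (h2.trans hl) h3
  exact ⟨r', e.trans hr.symm, h4⟩

theorem TL2.congr {l r l₀ r₀ : List Gen} (h : TL2 l₀ r₀) (hl : fl l = fl l₀)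
    (hr : fl r = fl r₀) : TL2 l r := ⟨h.1.congr hl hr, h.2.congr hr hl⟩

theorem tl2_of (ha : StmtTLa) (hb : StmtTLb) {l r : List Gen} (h : Move l r) : TL2 l r := by
  obtain ⟨a1, a2, a3, a4, a5, a6, a7⟩ := ha
  obtain ⟨b1, b2, b3, b4⟩ := hb
  cases h with
  | far p q k l h => exact a1 p q k l h
  | zig p => exact b1 p
  | zag p => exact b2 p
  | pcup p a => exact (a2 p).congr rfl rfl
  | pcap p a => exact (a3 p).congr rfl rfl
  | endl p e => exact b3 p e
  | endr p e => exact b4 p e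
  | r1cup p a => exact (a4 p).congr rfl rfl
  | r1cap p a => exact (a5 p).congr rfl rfl
  | r2 p a => exact (a6 p).congr rfl rfl
  | r3 p a b c h => exact (a7 p).congr rfl rfl

/-- The knotoid of a descending word. -/
def kn (w : List Gen) (h : Arc true w) : Knotoid := Quot.mk Step ⟨w, h.weaken⟩

/-- Every descending lift of `w` is equivalent to a descending lift of `w'`. -/
def Lifts (w w' : List Gen) : Prop := ∀ (z : List Gen) (hz : Arc true z), fl z = fl w →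
  ∃ (z' : List Gen) (hz' : Arc true z'), fl z' = fl w' ∧ kn z hz = kn z' hz'

theorem lifts_of_tl1 {l r u v : List Gen} (h : TL1 l r) (hr : Ok (cnt 0 u) r) :
    Lifts (u ++ l ++ v) (u ++ r ++ v) := by
  intro z hz e
  obtain ⟨z₁, v', rfl, e1, e2⟩ := fl_eq_append e
  obtain ⟨u', l', rfl, e3, e4⟩ := fl_eq_append e1
  obtain ⟨r', e5, h1, h2⟩ := h u' v' l' (by rwa [cnt_of_fl e3]) e4 hz
  refine ⟨u' ++ r' ++ v', h1, by simp [e2, e3, e5], ?_⟩
  rcases h2 with h2 | h2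
  · exact Quot.sound ⟨u', l', r', v', h2, rfl, rfl⟩
  · exact (Quot.sound ⟨u', r', l', v', h2, rfl, rfl⟩).symm

theorem lifts_of_fe (ha : StmtTLa) (hb : StmtTLb) {w w' : List Gen} (h : FE 0 w w') :
    Lifts w w' ∧ Lifts w' w := by
  induction h with
  | rel x y h =>
    obtain ⟨u, l, r, v, hm, h1, h2, rfl, rfl⟩ := h
    cases hm with
    | mv hm => exact ⟨lifts_of_tl1 (tl2_of ha hb hm).1 h2, lifts_of_tl1 (tl2_of ha hb hm).2 h1⟩
    | sw p a b =>
      exact ⟨fun z hz e => ⟨z, hz, by simpa [flK] using e, rfl⟩,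
        fun z hz e => ⟨z, hz, by simpa [flK] using e, rfl⟩⟩
  | refl x => exact ⟨fun z hz e => ⟨z, hz, e, rfl⟩, fun z hz e => ⟨z, hz, e, rfl⟩⟩
  | symm x y _ ih => exact ih.symm
  | trans x y z _ _ ih1 ih2 =>
    constructor
    · intro a ha' e
      obtain ⟨b, hb', e1, q1⟩ := ih1.1 a ha' e
      obtain ⟨c, hc', e2, q2⟩ := ih2.1 b hb' e1
      exact ⟨c, hc', e2, q1.trans q2⟩
    · intro a ha' e
      obtain ⟨b, hb', e1, q1⟩ := ih2.2 a ha' e
      obtain ⟨c, hc', e2, q2⟩ := ih1.2 b hb' e1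
      exact ⟨c, hc', e2, q1.trans q2⟩

theorem t1_of (ha : StmtTLa) (hb : StmtTLb) : StmtT1 := by
  intro w w' h hw
  obtain ⟨z, e, hz⟩ := hw.lift
  obtain ⟨z', hz', e', _⟩ := (lifts_of_fe ha hb h).1 z hz e
  exact hz'.of_fl e'

theorem t3_of (ha : StmtTLa) (hb : StmtTLb) (hu : StmtTU) : StmtT3 := by
  intro D D' hD hD' h
  obtain ⟨z', hz', e', q⟩ := (lifts_of_fe ha hb h).1 D.1 hD rfl
  have := hu _ _ e' hz' hD'
  subst this
  exact q

theorem t4 {D D' : Diagram} (h : Quot.mk Step D = Quot.mk Step D') : FE 0 D.1 D'.1 := by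
  have h' := Quot.eqvGen_exact h
  clear h
  induction h' with
  | rel x y h =>
    obtain ⟨u, l, r, v, hm, e1, e2⟩ := h
    have h1 := x.2.ok
    have h2 := y.2.ok
    rw [e1] at h1 ⊢
    rw [e2] at h2 ⊢
    rw [ok_append, ok_append] at h1 h2
    exact FE.ctx u v (FE.of_move hm h1.1.2 h2.1.2)
  | refl x => exact FE.refl _ _
  | symm x y _ ih => exact ih.symm
  | trans x y z _ _ ih1 ih2 => exact ih1.trans ih2

end Pool.Agent.MP_d5eec5_gt.H77
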