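import Mathlib

/-!
Cutting words.  The letters `0, 1, 2` are the three segments (left, middle, right) into which the
tail and the head cut a horizontal line.
-/

set_option autoImplicit false

namespace Pool.Agent.MP_d5eec5_gt.H77

/-- Words in three letters. -/
abbrev Wd := List (Fin 3)

/-- Reduced words from the tail to the head. -/
def Red (w : Wd) : Prop := w.IsChain (· ≠ ·) ∧ w.head? = some 2 ∧ w.getLast? = some 0

/-- A maximal block of letters different from `z` starts at `j` and has more than `t` letters. -/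
def Run (z : Fin 3) (w : Wd) (j t : ℕ) : Prop :=
  j + t < w.length ∧ (∀ i ≤ t, w[j + i]? ≠ some z) ∧ (j = 0 ∨ w[j - 1]? = some z)

instance (z : Fin 3) (w : Wd) (j t : ℕ) : Decidable (Run z w j t) := by
  unfold Run; infer_instance

/-- The number of such blocks. -/
def NR (z : Fin 3) (t : ℕ) (w : Wd) : ℕ :=
  ((Finset.range w.length).filter fun j => Run z w j t).card

/-- Delete `2 s` letters at `j`. -/
def del (j s : ℕ) (w : Wd) : Wd := w.take j ++ w.drop (j + 2 * s)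

/-- The number of changes of the turning direction. -/
def chg (w : Wd) : ℕ := ((Finset.range (w.length - 2)).filter fun j => w[j]? ≠ w[j + 2]?).card

/-- What the counting uses about the self-intersection number. -/
structure Ax (I : Wd → ℕ) : Prop where
  k1 : ∀ w z (S : Finset ℕ), Red w → (∀ j ∈ S, Run z w j 2) → ∃ κ : ℕ → ℕ → ℕ,
    (∀ j ∈ S, I (del j 1 w) + 1 + ∑ i ∈ S.erase j, κ j i ≤ I w) ∧
      ∀ j ∈ S, ∀ i ∈ S, j ≠ i → 1 ≤ κ j i + κ i j
  conc : ∀ w z j, Red w → Run z w j 4 → I w + I (del j 2 w) ≤ 2 * I (del j 1 w)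
  ext : ∀ u z r, Red u → r ≤ NR z 0 u → ∃ S : Finset ℕ, S.card = r ∧ ∀ j ∈ S, ∀ s, ∃ w,
    Red w ∧ Run z w j (2 * s) ∧ del j s w = u ∧
      I w + (if z = 1 then s else 0) ≤ I u + 2 * r * s
  sz : ∀ w, Red w → chg w ^ 2 ≤ 400 * (I w + 1)
  b0 : ∀ w, I w ≤ (w.length + 1) ^ 2

/-- The counting theorem. -/
def StmtCount : Prop := ∀ I : Wd → ℕ, Ax I → ∃ c C : ℝ, 0 < c ∧ ∃ N : ℕ, ∀ n ≥ N,
  {w | Red w ∧ I w = n}.Finite ∧ {w | Red w ∧ I w = n}.Nonempty ∧
  c * √n * Real.log n * {w | Red w ∧ I w = n}.ncard ≤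
    ∑ᶠ w ∈ {w | Red w ∧ I w = n}, (w.count 1 : ℝ) ∧
  ∑ᶠ w ∈ {w | Red w ∧ I w = n}, (w.count 1 : ℝ) ≤
    C * √n * Real.log n * {w | Red w ∧ I w = n}.ncard

end Pool.Agent.MP_d5eec5_gt.H77
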